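import Mathlib

/-!
# An upper bound of Hall-Tenenbaum type for integers with no prime of a given set dividing exactly once

Part A: the logarithmic sum.
-/

set_option autoImplicit false

namespace Pool.Agent.Lib.MP_f4ebb7_co

open Finset

/-- no prime of `Q` divides `m` exactly once -/
def NoExact (Q : ℕ → Prop) (m : ℕ) : Prop := ∀ q, q.Prime → Q q → q ∣ m → q ^ 2 ∣ m

open Classical in
/-- the integers `1 ≤ m ≤ M` with `NoExact Q m` -/
noncomputable def SQ (Q : ℕ → Prop) (M : ℕ) : Finset ℕ := (Icc 1 M).filter (NoExact Q)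

theorem mem_SQ (Q : ℕ → Prop) (M m : ℕ) : m ∈ SQ Q M ↔ 1 ≤ m ∧ m ≤ M ∧ NoExact Q m := by
  classical
  unfold SQ
  rw [mem_filter, mem_Icc, and_assoc]

theorem NoExact.ordCompl {Q : ℕ → Prop} {m : ℕ} (h : NoExact Q m) (hm : m ≠ 0) {q : ℕ} (hq : q.Prime) :
    NoExact Q (m / q ^ m.factorization q) := by
  intro r hr hQ hd
  have h1 : r ∣ m := hd.trans (Nat.ordCompl_dvd m q)
  have h2 := h r hr hQ h1
  have hrq : r ≠ q := by
    rintro rfl
    exact Nat.not_dvd_ordCompl hr hm hd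
  rw [← Nat.ordProj_mul_ordCompl_eq_self m q] at h2
  refine Nat.Coprime.dvd_of_dvd_mul_left ?_ h2
  exact Nat.Coprime.pow _ _ ((Nat.coprime_primes hr hq).2 hrq)

/-- the sum of `log w` over the prime powers `w ≤ y` -/
noncomputable def TT (y : ℕ) : ℝ := ∑ w ∈ (Icc 1 y).filter IsPrimePow, Real.log w

theorem TT_nonneg (y : ℕ) : 0 ≤ TT y :=
  Finset.sum_nonneg fun w _ => Real.log_natCast_nonneg w

theorem log_eq_sum (m : ℕ) (hm : m ≠ 0) :
    Real.log m = ∑ q ∈ m.primeFactors, Real.log ((q ^ m.factorization q : ℕ) : ℝ) := by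
  have h1 := Nat.prod_factorization_pow_eq_self hm
  rw [Finsupp.prod, Nat.support_factorization] at h1
  conv_lhs => rw [← h1]
  rw [Nat.cast_prod, Real.log_prod]
  intro q hq
  have := (Nat.prime_of_mem_primeFactors hq).pos
  positivity

/-- **Step A** -/
theorem stepA (Q : ℕ → Prop) (M : ℕ) : ∑ m ∈ SQ Q M, Real.log m ≤ ∑ b ∈ SQ Q M, TT (M / b) := by
  classical
  have h1 : ∑ m ∈ SQ Q M, Real.log m
      = ∑ x ∈ (SQ Q M).sigma (fun m => m.primeFactors), Real.log ((x.2 ^ x.1.factorization x.2 : ℕ) : ℝ) := by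
    rw [Finset.sum_sigma]
    refine Finset.sum_congr rfl fun m hm => ?_
    rw [mem_SQ] at hm
    exact log_eq_sum m (by omega)
  have h2 : ∑ b ∈ SQ Q M, TT (M / b)
      = ∑ y ∈ (SQ Q M).sigma (fun b => (Icc 1 (M / b)).filter IsPrimePow), Real.log (y.2 : ℝ) := by
    rw [Finset.sum_sigma]
    rfl
  rw [h1, h2]
  set φ : (Σ _ : ℕ, ℕ) → (Σ _ : ℕ, ℕ) := fun x => ⟨x.1 / x.2 ^ x.1.factorization x.2, x.2 ^ x.1.factorization x.2⟩
    with hφ
  have hinj : Set.InjOn φ ((SQ Q M).sigma (fun m => m.primeFactors) : Finset (Σ _ : ℕ, ℕ)) := by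
    rintro ⟨m, q⟩ hx ⟨m', q'⟩ hx' h
    simp only [Finset.coe_sigma, Set.mem_sigma_iff, mem_coe, mem_SQ, Nat.mem_primeFactors] at hx hx'
    obtain ⟨⟨hm1, hm2, hm3⟩, hq, hqm, hm0⟩ := hx
    obtain ⟨⟨hm1', hm2', hm3'⟩, hq', hqm', hm0'⟩ := hx'
    simp only [hφ, Sigma.mk.injEq, heq_eq_eq] at h
    obtain ⟨h3, h4⟩ := h
    have h5 : m = m' := by
      rw [← Nat.ordProj_mul_ordCompl_eq_self m q, ← Nat.ordProj_mul_ordCompl_eq_self m' q', h3, h4]
    have h6 : q = q' := by
      have h7 : q ∣ q' ^ m'.factorization q' := by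
        rw [← h4]
        exact dvd_pow_self q (hq.factorization_pos_of_dvd hm0 hqm).ne'
      exact (Nat.prime_dvd_prime_iff_eq hq hq').1 (hq.dvd_of_dvd_pow h7)
    rw [h5, h6]
  have h3 : ∑ x ∈ (SQ Q M).sigma (fun m => m.primeFactors), Real.log ((x.2 ^ x.1.factorization x.2 : ℕ) : ℝ)
      = ∑ y ∈ ((SQ Q M).sigma (fun m => m.primeFactors)).image φ, Real.log (y.2 : ℝ) := by
    rw [Finset.sum_image hinj]
  rw [h3]
  refine Finset.sum_le_sum_of_subset_of_nonneg ?_ ?_
  · intro y hy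
    rw [mem_image] at hy
    obtain ⟨⟨m, q⟩, hx, rfl⟩ := hy
    rw [mem_sigma, mem_SQ, Nat.mem_primeFactors] at hx
    obtain ⟨⟨hm1, hm2, hm3⟩, hq, hqm, hm0⟩ := hx
    simp only at hm1 hm2 hm3 hq hqm hm0
    have hb : 0 < m / q ^ m.factorization q := Nat.ordCompl_pos q hm0
    simp only [hφ, mem_sigma, mem_SQ, mem_filter, mem_Icc]
    refine ⟨⟨hb, (Nat.ordCompl_le m q).trans hm2, hm3.ordCompl hm0 hq⟩, ⟨Nat.ordProj_pos m q, ?_⟩, ?_⟩
    · rw [Nat.le_div_iff_mul_le hb, Nat.ordProj_mul_ordCompl_eq_self]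
      exact hm2
    · exact hq.isPrimePow.pow (hq.factorization_pos_of_dvd hm0 hqm).ne'
  · intro y _ _
    exact Real.log_natCast_nonneg _

/-- **Step B** -/
theorem stepB : ∃ C : ℝ, 0 < C ∧ ∀ y : ℕ, TT y ≤ C * y := by
  classical
  obtain ⟨C0, hC0⟩ := Chebyshev.psi_sub_theta_le_mul_sqrt
  set C1 : ℝ := max C0 1 with hC1
  have hC1p : 0 < C1 := lt_of_lt_of_le one_pos (le_max_right _ _)
  have hl2 : 0 < Real.log 2 := Real.log_pos (by norm_num)
  have hl4 : 0 < Real.log 4 := Real.log_pos (by norm_num)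
  refine ⟨Real.log 4 + 2 * C1 / Real.log 2, by positivity, ?_⟩
  intro y
  have hsplit : TT y ≤ ∑ w ∈ (Ioc 0 y).filter (fun w => w.Prime), Real.log w
      + ∑ w ∈ (Ioc 0 y).filter (fun w => ¬ w.Prime), Real.log y / Real.log 2 * ArithmeticFunction.vonMangoldt w := by
    unfold TT
    have h1 : (Icc 1 y).filter IsPrimePow = ((Icc 1 y).filter IsPrimePow).filter (fun w => w.Prime)
        ∪ ((Icc 1 y).filter IsPrimePow).filter (fun w => ¬ w.Prime) := by
      rw [Finset.filter_union_filter_not_eq]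
    rw [h1, Finset.sum_union (Finset.disjoint_filter_filter_not _ _ _)]
    refine add_le_add ?_ ?_
    · refine Finset.sum_le_sum_of_subset_of_nonneg ?_ (fun w _ _ => Real.log_natCast_nonneg w)
      intro w hw
      simp only [mem_filter, mem_Icc, mem_Ioc] at hw ⊢
      exact ⟨⟨by omega, hw.1.1.2⟩, hw.2⟩
    · calc ∑ w ∈ ((Icc 1 y).filter IsPrimePow).filter (fun w => ¬ w.Prime), Real.log w
          ≤ ∑ w ∈ ((Icc 1 y).filter IsPrimePow).filter (fun w => ¬ w.Prime),
              Real.log y / Real.log 2 * ArithmeticFunction.vonMangoldt w := by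
            refine Finset.sum_le_sum fun w hw => ?_
            simp only [mem_filter, mem_Icc] at hw
            obtain ⟨⟨⟨hw1, hw2⟩, hpp⟩, _⟩ := hw
            obtain ⟨q, a, hq, ha, rfl⟩ := (isPrimePow_nat_iff w).1 hpp
            rw [ArithmeticFunction.vonMangoldt_apply_pow ha.ne', ArithmeticFunction.vonMangoldt_apply_prime hq]
            have hlq : 0 ≤ Real.log q := Real.log_natCast_nonneg q
            have h2q : Real.log 2 ≤ Real.log q := Real.log_le_log (by norm_num) (by exact_mod_cast hq.two_le)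
            have h3 : Real.log ((q ^ a : ℕ) : ℝ) = a * Real.log q := by push_cast; rw [Real.log_pow]
            have h4 : Real.log ((q ^ a : ℕ) : ℝ) ≤ Real.log y :=
              Real.log_le_log (by exact_mod_cast hw1) (by exact_mod_cast hw2)
            rw [h3] at h4 ⊢
            rw [div_mul_eq_mul_div, le_div_iff₀ hl2]
            have h5 : (a : ℝ) * Real.log 2 ≤ Real.log y := by
              refine le_trans ?_ h4
              exact mul_le_mul_of_nonneg_left h2q (Nat.cast_nonneg a)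
            nlinarith [mul_le_mul_of_nonneg_right h5 hlq]
        _ ≤ _ := by
            refine Finset.sum_le_sum_of_subset_of_nonneg ?_ ?_
            · intro w hw
              simp only [mem_filter, mem_Icc, mem_Ioc] at hw ⊢
              exact ⟨⟨by omega, hw.1.1.2⟩, hw.2⟩
            · intro w _ _
              refine mul_nonneg (div_nonneg (Real.log_natCast_nonneg y) hl2.le) ?_
              exact ArithmeticFunction.vonMangoldt_nonneg
  rcases Nat.eq_zero_or_pos y with rfl | hy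
  · refine hsplit.trans ?_
    simp
  have hy' : (0 : ℝ) < y := by exact_mod_cast hy
  have h1 : ∑ w ∈ (Ioc 0 y).filter (fun w => w.Prime), Real.log w ≤ Real.log 4 * y := by
    have := Chebyshev.theta_le_log4_mul_x hy'.le
    unfold Chebyshev.theta at this
    rw [Nat.floor_natCast] at this
    exact this
  have h2 : ∑ w ∈ (Ioc 0 y).filter (fun w => ¬ w.Prime), Real.log y / Real.log 2 * ArithmeticFunction.vonMangoldt w
      ≤ 2 * C1 / Real.log 2 * y := by
    rw [← Finset.mul_sum]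
    have h3 := Chebyshev.psi_sub_theta_eq_sum_not_prime (y : ℝ)
    rw [Nat.floor_natCast] at h3
    rw [← h3]
    have h4 : Chebyshev.psi (y : ℝ) - Chebyshev.theta (y : ℝ) ≤ C1 * Real.sqrt y :=
      (hC0 y).trans (mul_le_mul_of_nonneg_right (le_max_left _ _) (Real.sqrt_nonneg _))
    have h5 : Real.log y ≤ 2 * Real.sqrt y := by
      have h6 : Real.log y = 2 * Real.log (Real.sqrt y) := by
        rw [Real.log_sqrt hy'.le]; ring
      rw [h6]
      have h7 := Real.log_le_sub_one_of_pos (Real.sqrt_pos.2 hy')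
      linarith
    have h8 : 0 ≤ Real.log y := Real.log_natCast_nonneg y
    have h9 : 0 ≤ Real.sqrt y := Real.sqrt_nonneg _
    have h10 : Real.sqrt y * Real.sqrt y = y := Real.mul_self_sqrt hy'.le
    calc Real.log y / Real.log 2 * (Chebyshev.psi (y : ℝ) - Chebyshev.theta (y : ℝ))
        ≤ Real.log y / Real.log 2 * (C1 * Real.sqrt y) :=
          mul_le_mul_of_nonneg_left h4 (div_nonneg h8 hl2.le)
      _ ≤ (2 * Real.sqrt y) / Real.log 2 * (C1 * Real.sqrt y) := by
          refine mul_le_mul_of_nonneg_right ?_ (by positivity)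
          exact div_le_div_of_nonneg_right h5 hl2.le
      _ = 2 * C1 / Real.log 2 * (Real.sqrt y * Real.sqrt y) := by ring
      _ = _ := by rw [h10]
  calc TT y ≤ _ := hsplit
    _ ≤ Real.log 4 * y + 2 * C1 / Real.log 2 * y := add_le_add h1 h2
    _ = _ := by ring

/-- the bound of `#S` by the sum of reciprocals -/
theorem card_mul_log_le : ∃ C : ℝ, 0 < C ∧ ∀ (Q : ℕ → Prop) (M : ℕ), 1 ≤ M →
    ((SQ Q M).card : ℝ) * Real.log M ≤ C * M * ∑ m ∈ SQ Q M, (1 : ℝ) / m := by
  obtain ⟨C0, hC0, hB⟩ := stepB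
  refine ⟨C0 + 1, by positivity, ?_⟩
  intro Q M hM
  have hM' : (0 : ℝ) < M := by exact_mod_cast hM
  have h1 : ((SQ Q M).card : ℝ) * Real.log M
      = ∑ m ∈ SQ Q M, Real.log m + ∑ m ∈ SQ Q M, Real.log ((M : ℝ) / m) := by
    rw [← nsmul_eq_mul, ← Finset.sum_const, ← Finset.sum_add_distrib]
    refine Finset.sum_congr rfl fun m hm => ?_
    rw [mem_SQ] at hm
    have : (0 : ℝ) < m := by exact_mod_cast hm.1
    rw [Real.log_div hM'.ne' this.ne']
    ring
  have h2 : ∑ m ∈ SQ Q M, Real.log m ≤ C0 * M * ∑ m ∈ SQ Q M, (1 : ℝ) / m := by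
    refine (stepA Q M).trans ?_
    rw [Finset.mul_sum]
    refine Finset.sum_le_sum fun m hm => ?_
    refine (hB _).trans ?_
    rw [mul_assoc]
    refine mul_le_mul_of_nonneg_left ?_ hC0.le
    rw [mul_one_div]
    exact Nat.cast_div_le
  have h3 : ∑ m ∈ SQ Q M, Real.log ((M : ℝ) / m) ≤ M * ∑ m ∈ SQ Q M, (1 : ℝ) / m := by
    rw [Finset.mul_sum]
    refine Finset.sum_le_sum fun m hm => ?_
    rw [mem_SQ] at hm
    have hm0 : (0 : ℝ) < m := by exact_mod_cast hm.1
    have := Real.log_le_sub_one_of_pos (div_pos hM' hm0)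
    rw [mul_one_div]
    linarith
  rw [h1]
  calc _ ≤ C0 * M * ∑ m ∈ SQ Q M, (1 : ℝ) / m + M * ∑ m ∈ SQ Q M, (1 : ℝ) / m := add_le_add h2 h3
    _ = _ := by ring

end Pool.Agent.Lib.MP_f4ebb7_co
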