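import Pool.Agent.Lib.MP_f4ebb7_co.HTA
import Pool.Agent.Lib.MP_67663b_nt.OddB.Mert

/-!
# An upper bound of Hall-Tenenbaum type

Part B: the sum of reciprocals through the Euler product, and the final bound.
-/

set_option autoImplicit false

namespace Pool.Agent.Lib.MP_f4ebb7_co

open Finset

theorem NoExact.mul_iff {Q : ℕ → Prop} {m n : ℕ} (h : Nat.Coprime m n) :
    NoExact Q (m * n) ↔ NoExact Q m ∧ NoExact Q n := by
  constructor
  · intro H
    refine ⟨fun q hq hQ hd => ?_, fun q hq hQ hd => ?_⟩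
    · have h1 := H q hq hQ (hd.mul_right n)
      refine Nat.Coprime.dvd_of_dvd_mul_right ?_ h1
      exact Nat.Coprime.pow_left 2 (Nat.Coprime.coprime_dvd_left hd h)
    · have h1 := H q hq hQ (hd.mul_left m)
      refine Nat.Coprime.dvd_of_dvd_mul_left ?_ h1
      exact Nat.Coprime.pow_left 2 (Nat.Coprime.coprime_dvd_left hd h.symm)
  · rintro ⟨H1, H2⟩ q hq hQ hd
    rcases (hq.dvd_mul).1 hd with h1 | h1
    · exact (H1 q hq hQ h1).mul_right n
    · exact (H2 q hq hQ h1).mul_left m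

open Classical in
/-- the indicator of `NoExact Q` divided by `m` -/
noncomputable def hf (Q : ℕ → Prop) (m : ℕ) : ℝ := if NoExact Q m then 1 / (m : ℝ) else 0

theorem hf_nonneg (Q : ℕ → Prop) (m : ℕ) : 0 ≤ hf Q m := by
  unfold hf
  split_ifs <;> positivity

theorem hf_le (Q : ℕ → Prop) (m : ℕ) : hf Q m ≤ 1 / (m : ℝ) := by
  unfold hf
  split_ifs
  · exact le_rfl
  · positivity

theorem hf_one (Q : ℕ → Prop) : hf Q 1 = 1 := by
  unfold hf
  rw [if_pos]
  · simp
  · intro q hq _ hd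
    exact absurd (Nat.dvd_one.1 hd) hq.one_lt.ne'

theorem hf_mul (Q : ℕ → Prop) {m n : ℕ} (h : Nat.Coprime m n) : hf Q (m * n) = hf Q m * hf Q n := by
  unfold hf
  by_cases h1 : NoExact Q m
  · by_cases h2 : NoExact Q n
    · rw [if_pos ((NoExact.mul_iff h).2 ⟨h1, h2⟩), if_pos h1, if_pos h2]
      push_cast
      rw [one_div_mul_one_div]
    · rw [if_neg (fun H => h2 ((NoExact.mul_iff h).1 H).2), if_neg h2, mul_zero]
  · rw [if_neg (fun H => h1 ((NoExact.mul_iff h).1 H).1), if_neg h1, zero_mul]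

open Classical in
theorem local_factor (Q : ℕ → Prop) {q : ℕ} (hq : q.Prime) :
    ∑' n : ℕ, hf Q (q ^ n) ≤ Real.exp ((if Q q then 0 else 1 / (q : ℝ)) + 1 / ((q : ℝ) * (q - 1))) := by
  have hq2 : (2 : ℝ) ≤ q := by exact_mod_cast hq.two_le
  have hq0 : (0 : ℝ) < q := by linarith
  have hr : (1 / (q : ℝ)) < 1 := by rw [div_lt_one hq0]; linarith
  have hr0 : 0 ≤ 1 / (q : ℝ) := by positivity
  have hgeo := summable_geometric_of_lt_one hr0 hr
  have hle : ∀ n : ℕ, hf Q (q ^ n) ≤ (1 / (q : ℝ)) ^ n := by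
    intro n
    refine (hf_le Q _).trans (le_of_eq ?_)
    push_cast
    rw [one_div, one_div, inv_pow]
  have hsum : Summable (fun n : ℕ => hf Q (q ^ n)) :=
    Summable.of_nonneg_of_le (fun n => hf_nonneg Q _) hle hgeo
  have h1 : ∑' n : ℕ, hf Q (q ^ n) = ∑ n ∈ range 2, hf Q (q ^ n) + ∑' n : ℕ, hf Q (q ^ (n + 2)) :=
    (hsum.sum_add_tsum_nat_add 2).symm
  have h2 : ∑' n : ℕ, hf Q (q ^ (n + 2)) ≤ 1 / ((q : ℝ) * (q - 1)) := by
    have h3 : ∑' n : ℕ, hf Q (q ^ (n + 2)) ≤ ∑' n : ℕ, (1 / (q : ℝ)) ^ 2 * (1 / (q : ℝ)) ^ n := by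
      refine Summable.tsum_le_tsum (fun n => ?_) ?_ (hgeo.mul_left _)
      · refine (hle _).trans (le_of_eq ?_)
        ring
      · exact (summable_nat_add_iff 2).2 hsum
    refine h3.trans (le_of_eq ?_)
    rw [tsum_mul_left, tsum_geometric_of_lt_one hr0 hr]
    have h4 : (q : ℝ) - 1 ≠ 0 := by linarith
    field_simp
  have h5 : ∑ n ∈ range 2, hf Q (q ^ n) ≤ 1 + (if Q q then 0 else 1 / (q : ℝ)) := by
    rw [Finset.sum_range_succ, Finset.sum_range_one, pow_zero, hf_one, pow_one]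
    refine add_le_add_right ?_ 1
    split_ifs with hQ
    · unfold hf
      rw [if_neg]
      intro H
      have := H q hq hQ dvd_rfl
      have h6 := Nat.le_of_dvd hq.pos this
      have h7 := hq.two_le
      nlinarith
    · exact hf_le Q q
  rw [h1]
  have h6 := Real.add_one_le_exp ((if Q q then 0 else 1 / (q : ℝ)) + 1 / ((q : ℝ) * (q - 1)))
  linarith

/-- **Step C** -/
theorem stepC (Q : ℕ → Prop) (M : ℕ) : ∑ m ∈ SQ Q M, (1 : ℝ) / m ≤
    ∏ q ∈ (M + 1).primesBelow, ∑' n : ℕ, hf Q (q ^ n) := by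
  classical
  have h := EulerProduct.summable_and_hasSum_smoothNumbers_prod_primesBelow_tsum
    (f := hf Q) (hf_one Q) (fun {m n} h => hf_mul Q h) (fun {q} hq => by
      have hq2 : (2 : ℝ) ≤ q := by exact_mod_cast hq.two_le
      have hq0 : (0 : ℝ) < q := by linarith
      have hr : (1 / (q : ℝ)) < 1 := by rw [div_lt_one hq0]; linarith
      have hr0 : 0 ≤ 1 / (q : ℝ) := by positivity
      refine Summable.of_nonneg_of_le (fun n => norm_nonneg _) (fun n => ?_) (summable_geometric_of_lt_one hr0 hr)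
      rw [Real.norm_of_nonneg (hf_nonneg Q _)]
      refine (hf_le Q _).trans (le_of_eq ?_)
      push_cast
      rw [one_div, one_div, inv_pow]) (M + 1)
  have h2 := h.2
  have hmem : ∀ m ∈ SQ Q M, m ∈ Nat.smoothNumbers (M + 1) := by
    intro m hm
    rw [mem_SQ] at hm
    rw [Nat.mem_smoothNumbers']
    intro p hp hd
    exact lt_of_le_of_lt (Nat.le_of_dvd (by omega) hd) (by omega)
  have h3 : ∑ m ∈ SQ Q M, (1 : ℝ) / m =
      ∑ m ∈ (SQ Q M).attach.map ⟨fun m => (⟨m.1, hmem m.1 m.2⟩ : Nat.smoothNumbers (M + 1)),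
        fun a b hab => Subtype.ext (congrArg (fun x => x.1) hab)⟩, hf Q m.1 := by
    rw [sum_map]
    rw [← sum_attach]
    refine Finset.sum_congr rfl fun m _ => ?_
    have hm := m.2
    rw [mem_SQ] at hm
    change (1 : ℝ) / (m.1 : ℕ) = hf Q m.1
    unfold hf
    rw [if_pos hm.2.2]
  rw [h3]
  exact sum_le_hasSum _ (fun m _ => hf_nonneg Q _) h2

/-- Mertens' upper bound -/
theorem mertens_up : ∃ C : ℝ, ∀ M : ℕ, 2 ≤ M →
    ∑ q ∈ Nat.primesLE M, (1 : ℝ) / q ≤ Real.log (Real.log M) + C := by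
  refine ⟨Real.log 3 + 6, ?_⟩
  intro M hM
  have hM' : (2 : ℝ) ≤ M := by exact_mod_cast hM
  set J := Nat.clog 2 M with hJ
  have hJ1 : 1 ≤ J := Nat.clog_pos (by norm_num) (by omega)
  have hMJ : M ≤ 2 ^ J := Nat.le_pow_clog (by norm_num) M
  have hsub : Nat.primesLE M ⊆ Nat.primesLE (2 ^ J) := by
    intro q hq
    rw [Nat.mem_primesLE] at hq ⊢
    exact ⟨hq.1.trans hMJ, hq.2⟩
  have h1 : ∑ q ∈ Nat.primesLE M, (1 : ℝ) / q ≤ Pool.MP_67663b_nt.Mert.R J := by
    unfold Pool.MP_67663b_nt.Mert.R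
    exact Finset.sum_le_sum_of_subset_of_nonneg hsub (fun q _ _ => by positivity)
  have h2 := Pool.MP_67663b_nt.Mert.R_le J hJ1
  have hl2 : 0.69 < Real.log 2 := by have := Real.log_two_gt_d9; linarith
  have hlM : Real.log 2 ≤ Real.log M := Real.log_le_log (by norm_num) hM'
  have hlMp : 0 < Real.log M := by linarith
  have h3 : (J : ℝ) ≤ 3 * Real.log M := by
    have h4 : 2 ^ (J - 1) < M := Nat.pow_pred_clog_lt_self (by norm_num) (by omega)
    have h5 : Real.log ((2 : ℝ) ^ (J - 1)) ≤ Real.log M :=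
      Real.log_le_log (by positivity) (by exact_mod_cast h4.le)
    rw [Real.log_pow, Nat.cast_sub hJ1, Nat.cast_one] at h5
    nlinarith
  have hJ' : (0 : ℝ) < J := by exact_mod_cast hJ1
  have h6 : Real.log J ≤ Real.log 3 + Real.log (Real.log M) := by
    rw [← Real.log_mul (by norm_num) hlMp.ne']
    exact Real.log_le_log hJ' h3
  linarith

open Classical in
/-- **The upper bound of Hall-Tenenbaum type** -/
theorem hall_tenenbaum : ∃ C : ℝ, 0 < C ∧ ∀ (Q : ℕ → Prop) (M : ℕ), 1 ≤ M →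
    ((SQ Q M).card : ℝ) ≤ C * M * Real.exp (-∑ q ∈ (Nat.primesLE M).filter Q, (1 : ℝ) / q) := by
  obtain ⟨C0, hC0, hA⟩ := card_mul_log_le
  obtain ⟨C1, hC1⟩ := mertens_up
  refine ⟨max 1 (C0 * Real.exp (C1 + 1)), by positivity, ?_⟩
  intro Q M hM
  have hM' : (0 : ℝ) < M := by exact_mod_cast hM
  rcases Nat.lt_or_ge M 2 with hM2 | hM2
  · have hM1 : M = 1 := by omega
    subst hM1
    have h1 : (Nat.primesLE 1).filter Q = ∅ := by
      rw [Finset.eq_empty_iff_forall_notMem]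
      intro q hq
      rw [mem_filter, Nat.mem_primesLE] at hq
      have := hq.1.2.two_le
      omega
    rw [h1, Finset.sum_empty, neg_zero, Real.exp_zero, mul_one]
    have h2 : (SQ Q 1).card ≤ 1 := by
      have : SQ Q 1 ⊆ Icc 1 1 := by
        intro m hm
        rw [mem_SQ] at hm
        rw [mem_Icc]; exact ⟨hm.1, hm.2.1⟩
      have := card_le_card this
      simpa using this
    have h3 : ((SQ Q 1).card : ℝ) ≤ 1 := by exact_mod_cast h2
    have h4 : (1 : ℝ) ≤ max 1 (C0 * Real.exp (C1 + 1)) := le_max_left _ _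
    push_cast
    linarith
  · have hM2' : (2 : ℝ) ≤ M := by exact_mod_cast hM2
    have hlog : 0 < Real.log M := Real.log_pos (by linarith)
    have h1 := hA Q M hM
    have h2 := stepC Q M
    have h3 : ∏ q ∈ (M + 1).primesBelow, ∑' n : ℕ, hf Q (q ^ n)
        ≤ Real.exp (∑ q ∈ (M + 1).primesBelow,
          ((if Q q then 0 else 1 / (q : ℝ)) + 1 / ((q : ℝ) * (q - 1)))) := by
      rw [Real.exp_sum]
      refine Finset.prod_le_prod (fun q _ => tsum_nonneg fun n => hf_nonneg Q _) (fun q hq => ?_)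
      exact local_factor Q (Nat.prime_of_mem_primesBelow hq)
    have h4 : ∑ q ∈ (M + 1).primesBelow, 1 / ((q : ℝ) * (q - 1)) ≤ 1 := by
      have h5 := Pool.MP_67663b_nt.Mert.sum_tail M
      have h6 : ∑ q ∈ (M + 1).primesBelow, 1 / ((q : ℝ) * (q - 1)) ≤
          ∑ n ∈ Ico 2 (M + 2), (1 : ℝ) / (n * (n - 1)) := by
        refine Finset.sum_le_sum_of_subset_of_nonneg ?_ ?_
        · intro q hq
          have hp := Nat.prime_of_mem_primesBelow hq
          have hlt := Nat.lt_of_mem_primesBelow hq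
          rw [mem_Ico]
          exact ⟨hp.two_le, by omega⟩
        · intro n hn _
          rw [mem_Ico] at hn
          have : (2 : ℝ) ≤ n := by exact_mod_cast hn.1
          have h7 : (0 : ℝ) ≤ (n : ℝ) - 1 := by linarith
          positivity
      have h7 : (0 : ℝ) ≤ 1 / ((M : ℝ) + 1) := by positivity
      linarith
    have h5 : ∑ q ∈ (M + 1).primesBelow, (if Q q then 0 else 1 / (q : ℝ))
        = ∑ q ∈ Nat.primesLE M, (1 : ℝ) / q - ∑ q ∈ (Nat.primesLE M).filter Q, (1 : ℝ) / q := by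
      have h6 : (M + 1).primesBelow = Nat.primesLE M := by
        ext q
        rw [Nat.mem_primesBelow, Nat.mem_primesLE, Nat.lt_succ_iff]
      rw [h6, eq_sub_iff_add_eq, Finset.sum_filter, ← Finset.sum_add_distrib]
      refine Finset.sum_congr rfl fun q _ => ?_
      split_ifs <;> ring
    have h6 := hC1 M hM2
    set E := ∑ q ∈ (Nat.primesLE M).filter Q, (1 : ℝ) / q with hE
    have h7 : ∑ q ∈ (M + 1).primesBelow, ((if Q q then 0 else 1 / (q : ℝ)) + 1 / ((q : ℝ) * (q - 1)))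
        ≤ Real.log (Real.log M) + (C1 + 1) + (-E) := by
      rw [Finset.sum_add_distrib, h5]
      linarith
    have h8 : ∑ m ∈ SQ Q M, (1 : ℝ) / m ≤ Real.log M * Real.exp (C1 + 1) * Real.exp (-E) := by
      refine h2.trans (h3.trans ((Real.exp_le_exp.2 h7).trans (le_of_eq ?_)))
      rw [Real.exp_add, Real.exp_add, Real.exp_log hlog]
    have h9 : ((SQ Q M).card : ℝ) * Real.log M ≤ (C0 * M * (Real.exp (C1 + 1) * Real.exp (-E))) * Real.log M := by
      refine h1.trans ?_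
      calc C0 * M * ∑ m ∈ SQ Q M, (1 : ℝ) / m ≤ C0 * M * (Real.log M * Real.exp (C1 + 1) * Real.exp (-E)) :=
            mul_le_mul_of_nonneg_left h8 (by positivity)
        _ = _ := by ring
    have h10 := le_of_mul_le_mul_right h9 hlog
    refine h10.trans ?_
    calc C0 * M * (Real.exp (C1 + 1) * Real.exp (-E)) = (C0 * Real.exp (C1 + 1)) * (M * Real.exp (-E)) := by ring
      _ ≤ max 1 (C0 * Real.exp (C1 + 1)) * (M * Real.exp (-E)) :=
        mul_le_mul_of_nonneg_right (le_max_right _ _) (by positivity)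
      _ = _ := by ring

end Pool.Agent.Lib.MP_f4ebb7_co
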