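import Pool.Agent.Lib.MP_f4ebb7_co.PS
import Pool.Agent.Lib.MP_dd84fd_nt.SW.SWPsi
import Pool.Agent.Lib.MP_e426f4_ag.TWL.SWJ

/-!
# The primes that are non-residues modulo `p`
-/

set_option autoImplicit false

namespace Pool.Agent.Lib.MP_f4ebb7_co

open Finset

/-- the non-residues modulo `p` -/
noncomputable def NR (p : ℕ) : Finset ℕ := (range p).filter (fun c => jacobiSym (c : ℤ) p = -1)

theorem card_NR (p : ℕ) (hp : p.Prime) (hp2 : p ≠ 2) : 2 * ((NR p).card : ℝ) = (Nat.totient p : ℝ) := by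
  have hodd : Odd p := hp.odd_of_ne_two hp2
  have hns : ¬ IsSquare p := by
    rintro ⟨r, hr⟩
    rw [hr] at hp
    have h1 : r ≠ 1 := by rintro rfl; exact absurd hp (by norm_num)
    exact Nat.not_prime_mul h1 h1 hp
  have h0 := Pool.Agent.Lib.MP_e426f4_ag.TWL.sum_jacobi_bot p hodd hns
  have hFact : Fact p.Prime := ⟨hp⟩
  have h1 : ∀ c ∈ range p, (2 : ℤ) * (if jacobiSym (c : ℤ) p = -1 then 1 else 0)
      = (if c = 0 then 0 else 1) - jacobiSym (c : ℤ) p := by
    intro c hc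
    rw [mem_range] at hc
    rcases eq_or_ne c 0 with rfl | hc0
    · have : jacobiSym ((0 : ℕ) : ℤ) p = 0 := by
        rw [Nat.cast_zero, ← jacobiSym.legendreSym.to_jacobiSym]
        simp [legendreSym]
      rw [this]
      norm_num
    · have hne : jacobiSym (c : ℤ) p ≠ 0 := by
        have : NeZero p := ⟨hp.ne_zero⟩
        rw [Ne, jacobiSym.eq_zero_iff_not_coprime, not_not, Int.gcd_natCast_natCast]
        exact (hp.coprime_iff_not_dvd.2 (Nat.not_dvd_of_pos_of_lt (Nat.pos_of_ne_zero hc0) hc)).symm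
      rw [if_neg hc0]
      rcases jacobiSym.trichotomy (c : ℤ) p with h | h | h
      · exact absurd h hne
      · rw [h]; norm_num
      · rw [h]; norm_num
  have h2 := Finset.sum_congr rfl h1
  rw [← Finset.mul_sum, Finset.sum_sub_distrib, h0, sub_zero] at h2
  have h3 : ∑ c ∈ range p, (if jacobiSym (c : ℤ) p = -1 then (1 : ℤ) else 0) = ((NR p).card : ℤ) := by
    rw [NR, Finset.sum_boole]
  have h4 : ∑ c ∈ range p, (if c = 0 then (0 : ℤ) else 1) = (p : ℤ) - 1 := by
    have h5 : ∑ c ∈ range p, (if c = 0 then (0 : ℤ) else 1) = ∑ c ∈ range p, ((1 : ℤ) - (if c = 0 then 1 else 0)) := by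
      refine Finset.sum_congr rfl fun c _ => ?_
      split_ifs <;> norm_num
    rw [h5, Finset.sum_sub_distrib, Finset.sum_ite_eq' (range p) 0, if_pos (mem_range.2 hp.pos)]
    simp
  rw [h3, h4] at h2
  rw [Nat.totient_prime hp, Nat.cast_sub hp.one_le]
  push_cast
  exact_mod_cast h2

theorem theta_nonres : ∃ X0 : ℕ, ∀ X : ℕ, X0 ≤ X → ∀ p : ℕ, p.Prime → p ≠ 2 → (p : ℝ) ≤ Real.log X →
    (X : ℝ) / 2 - X / Real.log X ^ 2 ≤ thP (fun q => jacobiSym (q : ℤ) p = -1) X := by
  classical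
  obtain ⟨X1, hX1⟩ := Pool.MP_dd84fd_nt.SW.sw_theta 3 1
  refine ⟨max X1 3, ?_⟩
  intro X hX p hp hp2 hpX
  have hX1' : X1 ≤ X := (le_max_left _ _).trans hX
  have hX3 : 3 ≤ X := (le_max_right _ _).trans hX
  have hlog := one_le_log hX3
  have hXpos : (0 : ℝ) < X := by exact_mod_cast (by omega : 0 < X)
  have hppos : (0 : ℝ) < p := by exact_mod_cast hp.pos
  have h1 : thP (fun q => jacobiSym (q : ℤ) p = -1) X
      = ∑ c ∈ NR p, ∑ q ∈ (Icc 1 X).filter (fun n => n.Prime ∧ n ≡ c [MOD p]), Real.log q := by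
    unfold thP
    rw [← Finset.sum_fiberwise_of_maps_to (g := fun q => q % p) (t := NR p)]
    · refine Finset.sum_congr rfl fun c hc => ?_
      refine Finset.sum_congr ?_ fun _ _ => rfl
      ext q
      simp only [mem_filter, Nat.mem_primesLE, mem_Icc, NR, mem_range] at hc ⊢
      have hcp : c % p = c := Nat.mod_eq_of_lt hc.1
      constructor
      · rintro ⟨⟨⟨h2, h3⟩, h4⟩, h5⟩
        refine ⟨⟨h3.one_le, h2⟩, h3, ?_⟩
        rw [Nat.ModEq, hcp]; exact h5
      · rintro ⟨⟨h2, h3⟩, h4, h5⟩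
        have h6 : q % p = c := by rw [Nat.ModEq, hcp] at h5; exact h5
        refine ⟨⟨⟨h3, h4⟩, ?_⟩, h6⟩
        rw [← hc.2]
        apply jacobiSym.mod_left'
        exact_mod_cast h5
    · intro q hq
      simp only [mem_filter, Nat.mem_primesLE, NR, mem_range] at hq ⊢
      refine ⟨Nat.mod_lt _ hp.pos, ?_⟩
      rw [← hq.2]
      apply jacobiSym.mod_left'
      push_cast
      exact Int.emod_emod_of_dvd _ (dvd_refl _)
  rw [h1]
  have hφ : 0 < (Nat.totient p : ℝ) := by exact_mod_cast Nat.totient_pos.2 hp.pos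
  have h2 : ∀ c ∈ NR p, (X : ℝ) / (Nat.totient p : ℝ) - X / Real.log X ^ 3
      ≤ ∑ q ∈ (Icc 1 X).filter (fun n => n.Prime ∧ n ≡ c [MOD p]), Real.log q := by
    intro c hc
    have hcop : Nat.Coprime c p := by
      simp only [NR, mem_filter, mem_range] at hc
      have : NeZero p := ⟨hp.ne_zero⟩
      by_contra h
      have h3 : jacobiSym (c : ℤ) p = 0 := by
        rw [jacobiSym.eq_zero_iff_not_coprime, Int.gcd_natCast_natCast]
        exact h
      rw [h3] at hc
      exact absurd hc.2 (by norm_num)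
    have h3 := hX1 X hX1' p c hp.one_le (by rw [pow_one]; exact hpX) hcop
    have h4 := (abs_le.1 h3).1
    linarith
  refine le_trans ?_ (Finset.sum_le_sum h2)
  rw [Finset.sum_const, nsmul_eq_mul]
  have hc := card_NR p hp hp2
  have h5 : ((NR p).card : ℝ) ≤ p := by
    have h6 : (NR p).card ≤ p := by
      refine (card_filter_le _ _).trans ?_
      rw [card_range]
    exact_mod_cast h6
  have h7 : ((NR p).card : ℝ) * ((X : ℝ) / (Nat.totient p : ℝ)) = X / 2 := by
    have : ((NR p).card : ℝ) = (Nat.totient p : ℝ) / 2 := by linarith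
    rw [this]
    field_simp
  have h8 : ((NR p).card : ℝ) * ((X : ℝ) / Real.log X ^ 3) ≤ X / Real.log X ^ 2 := by
    calc ((NR p).card : ℝ) * ((X : ℝ) / Real.log X ^ 3) ≤ Real.log X * ((X : ℝ) / Real.log X ^ 3) :=
          mul_le_mul_of_nonneg_right (h5.trans hpX) (by positivity)
      _ = X / Real.log X ^ 2 := by
          have : Real.log (X : ℝ) ≠ 0 := by linarith
          field_simp
  rw [mul_sub, h7]
  linarith

/-- **the exponential factor** -/
theorem exp_nonres : ∃ C : ℝ, 0 < C ∧ ∀ p : ℕ, p.Prime → p ≠ 2 → ∀ M : ℕ, 2 ≤ M →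
    Real.exp (-reP (fun q => jacobiSym (q : ℤ) p = -1) M) ≤ C * Real.sqrt p / Real.sqrt (Real.log M) := by
  obtain ⟨X0, hX0⟩ := theta_nonres
  set B : ℝ := Real.log ((X0 : ℝ) + 6) + 1 with hB
  have hB1 : 1 ≤ B := by
    have : 0 ≤ Real.log ((X0 : ℝ) + 6) := Real.log_nonneg (by have : (0 : ℝ) ≤ X0 := Nat.cast_nonneg _; linarith)
    linarith
  refine ⟨Real.exp 6 * Real.sqrt B, by positivity, ?_⟩
  intro p hp hp2 M hM
  have hp1 : (1 : ℝ) ≤ p := by exact_mod_cast hp.one_le
  set y : ℕ := max X0 (max 3 ⌈Real.exp p⌉₊) with hy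
  have hy3 : 3 ≤ y := (le_max_left _ _).trans (le_max_right _ _)
  have hyX : X0 ≤ y := le_max_left _ _
  have hyexp : Real.exp p ≤ y := by
    refine (Nat.le_ceil _).trans ?_
    exact_mod_cast (le_max_right 3 ⌈Real.exp p⌉₊).trans (le_max_right X0 _)
  have hyup : ((y + 1 : ℕ) : ℝ) ≤ ((X0 : ℝ) + 6) * Real.exp p := by
    have he1 : (1 : ℝ) ≤ Real.exp p := Real.one_le_exp (by linarith)
    have h1 : y ≤ X0 + 3 + ⌈Real.exp p⌉₊ := by
      rw [hy]
      refine max_le (by omega) (max_le (by omega) (by omega))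
    have h2 : (⌈Real.exp p⌉₊ : ℝ) < Real.exp p + 1 := Nat.ceil_lt_add_one (Real.exp_pos _).le
    have h3 : (y : ℝ) ≤ X0 + 3 + ⌈Real.exp p⌉₊ := by exact_mod_cast h1
    push_cast
    have h4 : (0 : ℝ) ≤ X0 := Nat.cast_nonneg _
    nlinarith
  have hlogy : Real.log ((y + 1 : ℕ) : ℝ) ≤ B * p := by
    have h1 : Real.log ((y + 1 : ℕ) : ℝ) ≤ Real.log (((X0 : ℝ) + 6) * Real.exp p) :=
      Real.log_le_log (by positivity) hyup
    have h4 : (0 : ℝ) ≤ X0 := Nat.cast_nonneg _
    rw [Real.log_mul (by positivity) (Real.exp_pos _).ne', Real.log_exp] at h1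
    have h5 : 0 ≤ Real.log ((X0 : ℝ) + 6) := Real.log_nonneg (by linarith)
    nlinarith
  have hlogy1 : 1 ≤ Real.log ((y + 1 : ℕ) : ℝ) := one_le_log (by omega)
  have hM2 : (2 : ℝ) ≤ M := by exact_mod_cast hM
  have hlM : 0 < Real.log M := Real.log_pos (by linarith)
  have hkey : Real.exp (-reP (fun q => jacobiSym (q : ℤ) p = -1) M)
      ≤ Real.exp 6 * (Real.sqrt (Real.log ((y + 1 : ℕ) : ℝ)) / Real.sqrt (Real.log M)) := by
    rcases Nat.lt_or_ge M y with hMy | hMy
    · have h1 : Real.exp (-reP (fun q => jacobiSym (q : ℤ) p = -1) M) ≤ 1 := by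
        rw [Real.exp_le_one_iff, neg_nonpos]
        exact Finset.sum_nonneg fun q _ => by positivity
      have h2 : (1 : ℝ) ≤ Real.exp 6 := Real.one_le_exp (by norm_num)
      have h3 : 1 ≤ Real.sqrt (Real.log ((y + 1 : ℕ) : ℝ)) / Real.sqrt (Real.log M) := by
        rw [le_div_iff₀ (Real.sqrt_pos.2 hlM), one_mul]
        refine Real.sqrt_le_sqrt (Real.log_le_log (by linarith) ?_)
        exact_mod_cast (by omega : M ≤ y + 1)
      nlinarith
    · have h1 := ps (fun q => jacobiSym (q : ℤ) p = -1) y hy3 M hMy (fun m hm1 hm2 => by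
        refine hX0 m (hyX.trans hm1) p hp hp2 ?_
        have h2 : Real.exp p ≤ m := hyexp.trans (by exact_mod_cast hm1)
        rw [← Real.log_exp (p : ℝ)]
        exact Real.log_le_log (Real.exp_pos _) h2)
      have h2 : Real.sqrt (Real.log ((y + 1 : ℕ) : ℝ)) / Real.sqrt (Real.log M)
          = Real.exp (1 / 2 * (Real.log (Real.log ((y + 1 : ℕ) : ℝ)) - Real.log (Real.log M))) := by
        have h3 : ∀ t : ℝ, 0 < t → Real.sqrt t = Real.exp (1 / 2 * Real.log t) := by
          intro t ht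
          rw [Real.sqrt_eq_rpow, Real.rpow_def_of_pos ht]
          congr 1; ring
        rw [h3 _ (by linarith), h3 _ hlM, ← Real.exp_sub]
        congr 1; ring
      rw [h2, ← Real.exp_add, Real.exp_le_exp]
      linarith
  refine hkey.trans ?_
  have h1 : Real.sqrt (Real.log ((y + 1 : ℕ) : ℝ)) ≤ Real.sqrt B * Real.sqrt p := by
    rw [← Real.sqrt_mul (by linarith)]
    exact Real.sqrt_le_sqrt hlogy
  have h2 : 0 < Real.sqrt (Real.log M) := Real.sqrt_pos.2 hlM
  calc Real.exp 6 * (Real.sqrt (Real.log ((y + 1 : ℕ) : ℝ)) / Real.sqrt (Real.log M))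
      ≤ Real.exp 6 * ((Real.sqrt B * Real.sqrt p) / Real.sqrt (Real.log M)) := by
        refine mul_le_mul_of_nonneg_left ?_ (Real.exp_pos _).le
        exact div_le_div_of_nonneg_right h1 h2.le
    _ = _ := by ring

end Pool.Agent.Lib.MP_f4ebb7_co
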