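import Pool.Agent.Lib.MP_f4ebb7_co.Group
import Pool.Agent.Lib.MP_f4ebb7_co.HTB
import Pool.Agent.Lib.MP_f4ebb7_co.NonRes

/-!
# Counting the candidate orders
-/

set_option autoImplicit false

namespace Pool.Agent.Lib.MP_f4ebb7_co

open Finset

/-- the condition at the odd prime `p` -/
def Cand (p n : ℕ) : Prop := p ^ 2 ∣ n ∧ ∀ q : ℕ, q.Prime → jacobiSym (q : ℤ) p = -1 → q ∣ n → q ^ 2 ∣ n

open Classical in
theorem card_cand_trivial (p x : ℕ) (hp : p.Prime) :
    (((Icc 1 x).filter (Cand p)).card : ℝ) ≤ (x : ℝ) / (p : ℝ) ^ 2 := by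
  have hp2 : 0 < p ^ 2 := pow_pos hp.pos 2
  have h1 : ((Icc 1 x).filter (Cand p)).card ≤ x / p ^ 2 := by
    have h2 : ((Icc 1 x).filter (Cand p)).image (fun n => n / p ^ 2) ⊆ Icc 1 (x / p ^ 2) := by
      intro m hm
      rw [mem_image] at hm
      obtain ⟨n, hn, rfl⟩ := hm
      rw [mem_filter, mem_Icc] at hn
      obtain ⟨⟨h3, h4⟩, ⟨k, hk⟩, _⟩ := hn
      rw [mem_Icc]
      refine ⟨?_, Nat.div_le_div_right h4⟩
      rw [hk, Nat.mul_div_cancel_left _ hp2]
      rcases Nat.eq_zero_or_pos k with h | h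
      · rw [h] at hk; omega
      · exact h
    have h3 : Set.InjOn (fun n => n / p ^ 2) (((Icc 1 x).filter (Cand p) : Finset ℕ) : Set ℕ) := by
      intro a ha b hb hab
      rw [mem_coe, mem_filter] at ha hb
      have := congrArg (fun t => p ^ 2 * t) hab
      simp only [Nat.mul_div_cancel' ha.2.1, Nat.mul_div_cancel' hb.2.1] at this
      exact this
    rw [← card_image_of_injOn h3]
    refine (card_le_card h2).trans ?_
    simp
  have h2 : (((x / p ^ 2 : ℕ)) : ℝ) ≤ (x : ℝ) / ((p ^ 2 : ℕ) : ℝ) := Nat.cast_div_le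
  push_cast at h2
  refine le_trans ?_ h2
  exact_mod_cast h1

open Classical in
theorem card_cand_le (p x : ℕ) (hp : p.Prime) :
    ((Icc 1 x).filter (Cand p)).card ≤ (SQ (fun q => jacobiSym (q : ℤ) p = -1) (x / p ^ 2)).card := by
  have hp2 : 0 < p ^ 2 := pow_pos hp.pos 2
  have h2 : ((Icc 1 x).filter (Cand p)).image (fun n => n / p ^ 2) ⊆ SQ (fun q => jacobiSym (q : ℤ) p = -1) (x / p ^ 2) := by
    intro m hm
    rw [mem_image] at hm
    obtain ⟨n, hn, rfl⟩ := hm
    rw [mem_filter, mem_Icc] at hn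
    obtain ⟨⟨h3, h4⟩, ⟨k, hk⟩, h5⟩ := hn
    rw [mem_SQ]
    have hkn : n / p ^ 2 = k := by rw [hk, Nat.mul_div_cancel_left _ hp2]
    refine ⟨?_, Nat.div_le_div_right h4, ?_⟩
    · rw [hkn]
      rcases Nat.eq_zero_or_pos k with h | h
      · rw [h] at hk; omega
      · exact h
    · rw [hkn]
      intro q hq hj hqk
      have h6 := h5 q hq hj (by rw [hk]; exact hqk.mul_left _)
      have hqp : q ≠ p := by
        rintro rfl
        have hFact : Fact q.Prime := ⟨hq⟩
        have h7 : jacobiSym (q : ℤ) q = 0 := by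
          have : NeZero q := ⟨hq.ne_zero⟩
          rw [jacobiSym.eq_zero_iff_not_coprime, Int.gcd_natCast_natCast, Nat.gcd_self]
          exact hq.one_lt.ne'
        rw [h7] at hj
        exact absurd hj (by norm_num)
      rw [hk] at h6
      refine Nat.Coprime.dvd_of_dvd_mul_left ?_ h6
      exact Nat.Coprime.pow 2 2 ((Nat.coprime_primes hq hp).2 hqp)
  have h3 : Set.InjOn (fun n => n / p ^ 2) (((Icc 1 x).filter (Cand p) : Finset ℕ) : Set ℕ) := by
    intro a ha b hb hab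
    rw [mem_coe, mem_filter] at ha hb
    have := congrArg (fun t => p ^ 2 * t) hab
    simp only [Nat.mul_div_cancel' ha.2.1, Nat.mul_div_cancel' hb.2.1] at this
    exact this
  rw [← card_image_of_injOn h3]
  exact card_le_card h2

open Classical in
/-- the count for a small prime `p` -/
theorem card_cand_small : ∃ C : ℝ, 0 < C ∧ ∀ p x : ℕ, p.Prime → p ≠ 2 → p ^ 4 ≤ x →
    (((Icc 1 x).filter (Cand p)).card : ℝ) ≤ C * (x / Real.sqrt (Real.log x)) * (Real.sqrt p / (p : ℝ) ^ 2) := by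
  obtain ⟨C0, hC0, hHT⟩ := hall_tenenbaum
  obtain ⟨C1, hC1, hE⟩ := exp_nonres
  refine ⟨C0 * C1 * 2, by positivity, ?_⟩
  intro p x hp hp2 hpx
  have hp3 : 3 ≤ p := by have := hp.two_le; omega
  have hpp : 0 < p ^ 2 := pow_pos hp.pos 2
  have hppos : (0 : ℝ) < p := by exact_mod_cast hp.pos
  set M := x / p ^ 2 with hM
  have hM9 : p ^ 2 ≤ M := by
    rw [hM, Nat.le_div_iff_mul_le hpp]
    calc p ^ 2 * p ^ 2 = p ^ 4 := by ring
      _ ≤ x := hpx
  have hM2 : 9 ≤ M := by nlinarith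
  have hx81 : 81 ≤ x := by
    have : 3 ^ 4 ≤ p ^ 4 := Nat.pow_le_pow_left hp3 4
    omega
  have hxpos : (0 : ℝ) < x := by exact_mod_cast (by omega : 0 < x)
  have hMpos : (0 : ℝ) < M := by exact_mod_cast (by omega : 0 < M)
  have hxM : x ≤ M ^ 4 := by
    have h1 : x < p ^ 2 * (M + 1) := by
      rw [hM]; exact Nat.lt_mul_div_succ x hpp
    have h2 : p ^ 2 * (M + 1) ≤ M * (M + 1) := Nat.mul_le_mul_right _ hM9
    have h3 : M * (M + 1) ≤ M ^ 4 := by
      have h4 : M + 1 ≤ M ^ 3 := by nlinarith [Nat.pow_le_pow_left hM2 2]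
      calc M * (M + 1) ≤ M * M ^ 3 := Nat.mul_le_mul_left _ h4
        _ = M ^ 4 := by ring
    omega
  have hlogM : Real.log x ≤ 4 * Real.log M := by
    have h1 : Real.log x ≤ Real.log ((M : ℝ) ^ 4) := Real.log_le_log hxpos (by exact_mod_cast hxM)
    rw [Real.log_pow] at h1
    push_cast at h1
    exact h1
  have hlx : 0 < Real.log x := Real.log_pos (by exact_mod_cast (by omega : 1 < x))
  have hlM : 0 < Real.log M := by linarith
  have h1 := hHT (fun q => jacobiSym (q : ℤ) p = -1) M (by omega)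
  have h2 := hE p hp hp2 M (by omega)
  have h3 : ((SQ (fun q => jacobiSym (q : ℤ) p = -1) M).card : ℝ) ≤ C0 * M * (C1 * Real.sqrt p / Real.sqrt (Real.log M)) := by
    refine h1.trans (mul_le_mul_of_nonneg_left ?_ (by positivity))
    exact h2
  have h4 : (((Icc 1 x).filter (Cand p)).card : ℝ) ≤ ((SQ (fun q => jacobiSym (q : ℤ) p = -1) M).card : ℝ) := by
    exact_mod_cast card_cand_le p x hp
  have h5 : (M : ℝ) ≤ (x : ℝ) / (p : ℝ) ^ 2 := by
    have : ((x / p ^ 2 : ℕ) : ℝ) ≤ (x : ℝ) / ((p ^ 2 : ℕ) : ℝ) := Nat.cast_div_le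
    push_cast at this
    exact this
  have h6 : 1 / Real.sqrt (Real.log M) ≤ 2 / Real.sqrt (Real.log x) := by
    have h7 : Real.sqrt (Real.log x) ≤ 2 * Real.sqrt (Real.log M) := by
      have h8 : Real.sqrt (4 * Real.log M) = 2 * Real.sqrt (Real.log M) := by
        rw [Real.sqrt_mul (by norm_num), show (4 : ℝ) = 2 ^ 2 by norm_num, Real.sqrt_sq (by norm_num)]
      rw [← h8]
      exact Real.sqrt_le_sqrt hlogM
    rw [div_le_div_iff₀ (Real.sqrt_pos.2 hlM) (Real.sqrt_pos.2 hlx), one_mul]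
    exact h7
  calc (((Icc 1 x).filter (Cand p)).card : ℝ) ≤ C0 * M * (C1 * Real.sqrt p / Real.sqrt (Real.log M)) := h4.trans h3
    _ = C0 * C1 * Real.sqrt p * (M * (1 / Real.sqrt (Real.log M))) := by ring
    _ ≤ C0 * C1 * Real.sqrt p * ((x : ℝ) / (p : ℝ) ^ 2 * (2 / Real.sqrt (Real.log x))) := by
        refine mul_le_mul_of_nonneg_left ?_ (by positivity)
        exact mul_le_mul h5 h6 (by positivity) (by positivity)
    _ = _ := by ring

/-- the tail of `∑ 1/n²` -/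
theorem tail_sq (z N : ℕ) (hz : 1 ≤ z) : ∑ n ∈ Ioc z (z + N), (1 : ℝ) / (n : ℝ) ^ 2 ≤ 1 / (z : ℝ) - 1 / ((z + N : ℕ) : ℝ) := by
  induction N with
  | zero => simp
  | succ N ih =>
    have h1 : Ioc z (z + (N + 1)) = insert (z + N + 1) (Ioc z (z + N)) := by
      ext n
      simp only [mem_insert, mem_Ioc]
      omega
    rw [h1, sum_insert (by simp)]
    have hz' : (0 : ℝ) < ((z + N : ℕ) : ℝ) := by exact_mod_cast (by omega : 0 < z + N)
    have h2 : (1 : ℝ) / ((z + N + 1 : ℕ) : ℝ) ^ 2 ≤ 1 / ((z + N : ℕ) : ℝ) - 1 / ((z + N + 1 : ℕ) : ℝ) := by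
      have h3 : ((z + N + 1 : ℕ) : ℝ) = ((z + N : ℕ) : ℝ) + 1 := by push_cast; ring
      rw [h3]
      set t := ((z + N : ℕ) : ℝ)
      rw [div_sub_div _ _ (by positivity) (by positivity), div_le_div_iff₀ (by positivity) (by positivity)]
      nlinarith
    have h4 : z + (N + 1) = z + N + 1 := by ring
    rw [h4]
    linarith

end Pool.Agent.Lib.MP_f4ebb7_co
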