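import Pool.Agent.Lib.MP_f4ebb7_co.Count

/-!
# The final count
-/

set_option autoImplicit false

namespace Pool.Agent.Lib.MP_f4ebb7_co

open Finset

open Classical in
theorem count_all : ∃ C : ℝ, ∀ x : ℕ, 2 ≤ x →
    (((Icc 1 x).filter (fun n => IsSquare n ∨ ∃ p : ℕ, p.Prime ∧ p ≠ 2 ∧ Cand p n)).card : ℝ)
      ≤ C * (x / Real.sqrt (Real.log x)) := by
  obtain ⟨C0, hC0, hsmall⟩ := card_cand_small
  have hsummable : Summable (fun n : ℕ => 1 / (n : ℝ) ^ (3 / 2 : ℝ)) :=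
    Real.summable_one_div_nat_rpow.2 (by norm_num)
  set K : ℝ := ∑' n : ℕ, 1 / (n : ℝ) ^ (3 / 2 : ℝ) with hK
  refine ⟨2 + C0 * K + 4, ?_⟩
  intro x hx
  set z := Nat.sqrt (Nat.sqrt x) with hz
  have hsx : 1 ≤ Nat.sqrt x := by
    rw [Nat.le_sqrt]; omega
  have hz1 : 1 ≤ z := by
    rw [hz, Nat.le_sqrt]; omega
  have hxpos : (0 : ℝ) < x := by exact_mod_cast (by omega : 0 < x)
  have hx1 : (1 : ℝ) ≤ x := by exact_mod_cast (by omega : 1 ≤ x)
  have hlx : 0 < Real.log x := Real.log_pos (by exact_mod_cast (by omega : 1 < x))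
  have hslx : 0 < Real.sqrt (Real.log x) := Real.sqrt_pos.2 hlx
  set w : ℝ := Real.sqrt (Real.sqrt x) with hw
  have hw1 : 1 ≤ w := by
    rw [hw, Real.one_le_sqrt, Real.one_le_sqrt]; exact hx1
  have hw2 : w ^ 2 = Real.sqrt x := Real.sq_sqrt (Real.sqrt_nonneg _)
  have hw4 : w ^ 4 = x := by
    have h0 : w ^ 4 = (w ^ 2) ^ 2 := by ring
    rw [h0, hw2, Real.sq_sqrt hxpos.le]
  have hlogw : Real.sqrt (Real.log x) ≤ 2 * w := by
    have h1 : Real.log x = 4 * Real.log w := by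
      rw [← hw4, Real.log_pow]; push_cast; ring
    have h2 := Real.log_le_sub_one_of_pos (show 0 < w by linarith)
    have h3 : Real.log x ≤ (2 * w) ^ 2 := by nlinarith
    rw [← Real.sqrt_sq (show (0 : ℝ) ≤ 2 * w by linarith)]
    exact Real.sqrt_le_sqrt h3
  -- the cover
  have hcover : (Icc 1 x).filter (fun n => IsSquare n ∨ ∃ p : ℕ, p.Prime ∧ p ≠ 2 ∧ Cand p n) ⊆
      ((Icc 1 x).filter (fun n => IsSquare n)
        ∪ ((Icc 1 z).filter (fun p => p.Prime ∧ p ≠ 2)).biUnion (fun p => (Icc 1 x).filter (Cand p)))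
        ∪ ((Ioc z x).filter (fun p => p.Prime)).biUnion (fun p => (Icc 1 x).filter (Cand p)) := by
    intro n hn
    rw [mem_filter] at hn
    obtain ⟨hn1, hn2⟩ := hn
    rw [mem_union, mem_union]
    rcases hn2 with h | ⟨p, hp, hp2, hc⟩
    · exact Or.inl (Or.inl (mem_filter.2 ⟨hn1, h⟩))
    · have hpx : p ≤ x := by
        have h1 := Nat.le_of_dvd (by rw [mem_Icc] at hn1; omega) hc.1
        rw [mem_Icc] at hn1
        nlinarith [hp.one_le]
      rcases Nat.lt_or_ge z p with h | h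
      · refine Or.inr (mem_biUnion.2 ⟨p, ?_, mem_filter.2 ⟨hn1, hc⟩⟩)
        rw [mem_filter, mem_Ioc]
        exact ⟨⟨h, hpx⟩, hp⟩
      · refine Or.inl (Or.inr (mem_biUnion.2 ⟨p, ?_, mem_filter.2 ⟨hn1, hc⟩⟩))
        rw [mem_filter, mem_Icc]
        exact ⟨⟨hp.one_le, h⟩, hp, hp2⟩
  have hcard := (card_le_card hcover).trans ((card_union_le _ _).trans
    (Nat.add_le_add_right (card_union_le _ _) _))
  have hcard' : (((Icc 1 x).filter (fun n => IsSquare n ∨ ∃ p : ℕ, p.Prime ∧ p ≠ 2 ∧ Cand p n)).card : ℝ)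
      ≤ (((Icc 1 x).filter (fun n => IsSquare n)).card : ℝ)
        + ∑ p ∈ (Icc 1 z).filter (fun p => p.Prime ∧ p ≠ 2), (((Icc 1 x).filter (Cand p)).card : ℝ)
        + ∑ p ∈ (Ioc z x).filter (fun p => p.Prime), (((Icc 1 x).filter (Cand p)).card : ℝ) := by
    have h1 : ((((Icc 1 z).filter (fun p => p.Prime ∧ p ≠ 2)).biUnion (fun p => (Icc 1 x).filter (Cand p))).card : ℝ)
        ≤ ∑ p ∈ (Icc 1 z).filter (fun p => p.Prime ∧ p ≠ 2), (((Icc 1 x).filter (Cand p)).card : ℝ) := by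
      exact_mod_cast card_biUnion_le
    have h2 : ((((Ioc z x).filter (fun p => p.Prime)).biUnion (fun p => (Icc 1 x).filter (Cand p))).card : ℝ)
        ≤ ∑ p ∈ (Ioc z x).filter (fun p => p.Prime), (((Icc 1 x).filter (Cand p)).card : ℝ) := by
      exact_mod_cast card_biUnion_le
    have h3 : (((Icc 1 x).filter (fun n => IsSquare n ∨ ∃ p : ℕ, p.Prime ∧ p ≠ 2 ∧ Cand p n)).card : ℝ)
      ≤ (((Icc 1 x).filter (fun n => IsSquare n)).card : ℝ)
        + ((((Icc 1 z).filter (fun p => p.Prime ∧ p ≠ 2)).biUnion (fun p => (Icc 1 x).filter (Cand p))).card : ℝ)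
        + ((((Ioc z x).filter (fun p => p.Prime)).biUnion (fun p => (Icc 1 x).filter (Cand p))).card : ℝ) := by
      exact_mod_cast hcard
    linarith
  -- squares
  have hsq : (((Icc 1 x).filter (fun n => IsSquare n)).card : ℝ) ≤ 2 * (x / Real.sqrt (Real.log x)) := by
    have h1 : ((Icc 1 x).filter (fun n => IsSquare n)).card ≤ Nat.sqrt x := by
      have h2 : (Icc 1 x).filter (fun n => IsSquare n) ⊆ (Icc 1 (Nat.sqrt x)).image (fun m => m * m) := by
        intro n hn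
        rw [mem_filter, mem_Icc] at hn
        obtain ⟨⟨h3, h4⟩, r, rfl⟩ := hn
        rw [mem_image]
        refine ⟨r, ?_, rfl⟩
        rw [mem_Icc, Nat.le_sqrt]
        refine ⟨?_, h4⟩
        rcases Nat.eq_zero_or_pos r with h | h
        · rw [h] at h3; omega
        · exact h
      refine (card_le_card h2).trans (card_image_le.trans ?_)
      simp
    have h2 : (((Icc 1 x).filter (fun n => IsSquare n)).card : ℝ) ≤ Real.sqrt x := by
      have h3 : (((Icc 1 x).filter (fun n => IsSquare n)).card : ℝ) ≤ (Nat.sqrt x : ℝ) := by exact_mod_cast h1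
      exact h3.trans Real.nat_sqrt_le_real_sqrt
    refine h2.trans ?_
    rw [← mul_div_assoc, le_div_iff₀ hslx]
    calc Real.sqrt x * Real.sqrt (Real.log x) ≤ Real.sqrt x * (2 * w) :=
          mul_le_mul_of_nonneg_left hlogw (Real.sqrt_nonneg _)
      _ = w ^ 2 * (2 * w) := by rw [hw2]
      _ = 2 * (w ^ 3 * 1) := by ring
      _ ≤ 2 * (w ^ 3 * w) := by
          refine mul_le_mul_of_nonneg_left ?_ (by norm_num)
          exact mul_le_mul_of_nonneg_left hw1 (by positivity)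
      _ = 2 * w ^ 4 := by ring
      _ = 2 * x := by rw [hw4]
  -- small primes
  have hA : ∑ p ∈ (Icc 1 z).filter (fun p => p.Prime ∧ p ≠ 2), (((Icc 1 x).filter (Cand p)).card : ℝ)
      ≤ C0 * K * (x / Real.sqrt (Real.log x)) := by
    have h1 : ∀ p ∈ (Icc 1 z).filter (fun p => p.Prime ∧ p ≠ 2), (((Icc 1 x).filter (Cand p)).card : ℝ)
        ≤ C0 * (x / Real.sqrt (Real.log x)) * (1 / (p : ℝ) ^ (3 / 2 : ℝ)) := by
      intro p hp
      rw [mem_filter, mem_Icc] at hp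
      obtain ⟨⟨h2, h3⟩, h4, h5⟩ := hp
      have hp4 : p ^ 4 ≤ x := by
        rw [hz, Nat.le_sqrt, Nat.le_sqrt] at h3
        calc p ^ 4 = (p * p) * (p * p) := by ring
          _ ≤ x := h3
      refine (hsmall p x h4 h5 hp4).trans (le_of_eq ?_)
      congr 1
      have hp0 : (0 : ℝ) < p := by exact_mod_cast h4.pos
      rw [Real.sqrt_eq_rpow, ← Real.rpow_natCast, ← Real.rpow_sub hp0, one_div ((p : ℝ) ^ (3 / 2 : ℝ)),
        ← Real.rpow_neg hp0.le]
      norm_num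
    refine (Finset.sum_le_sum h1).trans ?_
    rw [← Finset.mul_sum]
    have h2 : ∑ p ∈ (Icc 1 z).filter (fun p => p.Prime ∧ p ≠ 2), (1 / (p : ℝ) ^ (3 / 2 : ℝ)) ≤ K :=
      hsummable.sum_le_tsum _ (fun n _ => by positivity)
    calc C0 * (x / Real.sqrt (Real.log x)) * ∑ p ∈ (Icc 1 z).filter (fun p => p.Prime ∧ p ≠ 2), (1 / (p : ℝ) ^ (3 / 2 : ℝ))
        ≤ C0 * (x / Real.sqrt (Real.log x)) * K := mul_le_mul_of_nonneg_left h2 (by positivity)
      _ = _ := by ring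
  -- large primes
  have hB : ∑ p ∈ (Ioc z x).filter (fun p => p.Prime), (((Icc 1 x).filter (Cand p)).card : ℝ)
      ≤ 4 * (x / Real.sqrt (Real.log x)) := by
    have h1 : ∑ p ∈ (Ioc z x).filter (fun p => p.Prime), (((Icc 1 x).filter (Cand p)).card : ℝ)
        ≤ ∑ p ∈ (Ioc z x).filter (fun p => p.Prime), x * (1 / (p : ℝ) ^ 2) := by
      refine Finset.sum_le_sum fun p hp => ?_
      rw [mem_filter] at hp
      refine (card_cand_trivial p x hp.2).trans (le_of_eq ?_)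
      ring
    refine h1.trans ?_
    rw [← Finset.mul_sum]
    have h2 : ∑ p ∈ (Ioc z x).filter (fun p => p.Prime), (1 / (p : ℝ) ^ 2) ≤ 1 / (z : ℝ) := by
      have hzx : z ≤ x := by
        rw [hz]; exact (Nat.sqrt_le_self _).trans (Nat.sqrt_le_self _)
      have h3 := tail_sq z (x - z) hz1
      have h4 : z + (x - z) = x := by omega
      rw [h4] at h3
      have h5 : ∑ p ∈ (Ioc z x).filter (fun p => p.Prime), (1 / (p : ℝ) ^ 2) ≤ ∑ n ∈ Ioc z x, (1 : ℝ) / (n : ℝ) ^ 2 :=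
        Finset.sum_le_sum_of_subset_of_nonneg (filter_subset _ _) (fun n _ _ => by positivity)
      have h6 : (0 : ℝ) ≤ 1 / (x : ℝ) := by positivity
      linarith
    have hzpos : (0 : ℝ) < z := by exact_mod_cast (by omega : 0 < z)
    have hwz : w ≤ 2 * z := by
      have h3 : x < (z + 1) ^ 4 := by
        have h4 : Nat.sqrt x < (z + 1) * (z + 1) := Nat.lt_succ_sqrt _
        have h5 : x < (Nat.sqrt x + 1) * (Nat.sqrt x + 1) := Nat.lt_succ_sqrt _
        have h6 : Nat.sqrt x + 1 ≤ (z + 1) * (z + 1) := h4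
        calc x < (Nat.sqrt x + 1) * (Nat.sqrt x + 1) := h5
          _ ≤ ((z + 1) * (z + 1)) * ((z + 1) * (z + 1)) := Nat.mul_le_mul h6 h6
          _ = (z + 1) ^ 4 := by ring
      have h4 : w ^ 4 < ((z : ℝ) + 1) ^ 4 := by
        rw [hw4]; exact_mod_cast h3
      have h5 : w < (z : ℝ) + 1 := lt_of_pow_lt_pow_left₀ 4 (by positivity) h4
      have h6 : (1 : ℝ) ≤ z := by exact_mod_cast hz1
      linarith
    have h7 : 1 / (z : ℝ) ≤ 4 / Real.sqrt (Real.log x) := by
      rw [div_le_div_iff₀ hzpos hslx]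
      linarith
    calc (x : ℝ) * ∑ p ∈ (Ioc z x).filter (fun p => p.Prime), (1 / (p : ℝ) ^ 2)
        ≤ x * (4 / Real.sqrt (Real.log x)) := mul_le_mul_of_nonneg_left (h2.trans h7) hxpos.le
      _ = _ := by ring
  calc _ ≤ _ := hcard'
    _ ≤ 2 * (x / Real.sqrt (Real.log x)) + C0 * K * (x / Real.sqrt (Real.log x)) + 4 * (x / Real.sqrt (Real.log x)) :=
        add_le_add (add_le_add hsq hA) hB
    _ = _ := by ring

end Pool.Agent.Lib.MP_f4ebb7_co
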