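import Pool.Agent.Lib.MP_f4ebb7_co.SelfConj

/-!
# Difference sets in abelian groups: the image in `ZMod p` and the shape of the order
-/

set_option autoImplicit false

namespace Pool.Agent.Lib.MP_f4ebb7_co

open Finset

theorem exists_hom (p : ℕ) [Fact p.Prime] {G : Type*} [AddCommGroup G] [Fintype G] (h : p ∣ Fintype.card G) :
    ∃ π : G →+ ZMod p, Function.Surjective π := by
  obtain ⟨x, hx⟩ := exists_prime_addOrderOf_dvd_card p h
  have hp : p.Prime := Fact.out
  have hx0 : x ≠ 0 := by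
    rintro rfl
    rw [addOrderOf_zero] at hx
    exact hp.one_lt.ne hx
  have hninj : ¬ Function.Injective (fun y : G => p • y) := by
    intro hinj
    refine hx0 (hinj ?_)
    change p • x = p • 0
    rw [smul_zero, ← hx, addOrderOf_nsmul_eq_zero]
  have hnsurj : ¬ Function.Surjective (fun y : G => p • y) := fun hs =>
    hninj (Finite.injective_iff_surjective.2 hs)
  obtain ⟨y, hy⟩ := not_forall.1 hnsurj
  have hy0 : ModN.mkQ p y ≠ 0 := by
    intro h0
    have h1 : (LinearMap.range (LinearMap.lsmul ℤ G (p : ℤ))).mkQ y = 0 := h0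
    rw [Submodule.mkQ_apply, Submodule.Quotient.mk_eq_zero] at h1
    obtain ⟨z, hz⟩ := h1
    refine hy ⟨z, ?_⟩
    rw [← hz]
    simp
  obtain ⟨f, hf⟩ := Module.Projective.exists_dual_eq_one (ZMod p) hy0
  refine ⟨f.toAddMonoidHom.comp (ModN.mkQ p), fun c => ⟨c.val • y, ?_⟩⟩
  rw [map_nsmul]
  change c.val • f (ModN.mkQ p y) = c
  rw [hf, nsmul_eq_mul, mul_one, ZMod.natCast_zmod_val]

section
variable {G : Type*} [AddCommGroup G] [Fintype G] [DecidableEq G]

theorem autocorr (p : ℕ) [Fact p.Prime] (π : G →+ ZMod p) (hπ : Function.Surjective π) (D : Finset G) (l n : ℕ)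
    (hD : ∀ g : G, g ≠ 0 → ((D ×ˢ D).filter (fun x => x.1 - x.2 = g)).card = l) (hk : D.card = n + l)
    (j : ZMod p) (hj : j ≠ 0) :
    ∑ i, ((D.filter (fun d => π d = i)).card : ℤ) * ((D.filter (fun d => π d = i)).card : ℤ)
      - ∑ i, ((D.filter (fun d => π d = i)).card : ℤ) * ((D.filter (fun d => π d = i + j)).card : ℤ) = n := by
  have hA : ∀ j : ZMod p, ∑ i, ((D.filter (fun d => π d = i)).card : ℤ) * ((D.filter (fun d => π d = i + j)).card : ℤ)
      = ∑ g ∈ univ.filter (fun g : G => π g = j), (((D ×ˢ D).filter (fun x => x.1 - x.2 = g)).card : ℤ) := by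
    intro j
    have h1 : ∑ g ∈ univ.filter (fun g : G => π g = j), (((D ×ˢ D).filter (fun x => x.1 - x.2 = g)).card : ℤ)
        = (((D ×ˢ D).filter (fun x => π (x.1 - x.2) = j)).card : ℤ) := by
      have h2 := Finset.card_eq_sum_card_fiberwise (f := fun x : G × G => x.1 - x.2)
        (s := (D ×ˢ D).filter (fun x => π (x.1 - x.2) = j)) (t := univ.filter (fun g : G => π g = j))
        (fun x hx => by
          have := (mem_filter.1 hx).2
          simpa using this)
      rw [h2]
      push_cast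
      refine Finset.sum_congr rfl fun g hg => ?_
      congr 2
      ext x
      simp only [mem_filter, mem_univ, true_and] at hg ⊢
      constructor
      · rintro ⟨h3, h4⟩
        exact ⟨⟨h3, by rw [h4]; exact hg⟩, h4⟩
      · rintro ⟨⟨h3, _⟩, h4⟩
        exact ⟨h3, h4⟩
    have h5 : (((D ×ˢ D).filter (fun x => π (x.1 - x.2) = j)).card : ℤ)
        = ∑ i : ZMod p, ((((D ×ˢ D).filter (fun x => π (x.1 - x.2) = j)).filter (fun x => π x.2 = i)).card : ℤ) := by
      have h2 := Finset.card_eq_sum_card_fiberwise (f := fun x : G × G => π x.2)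
        (s := (D ×ˢ D).filter (fun x => π (x.1 - x.2) = j)) (t := (univ : Finset (ZMod p)))
        (fun x _ => by simp)
      rw [h2]
      push_cast
      rfl
    rw [h1, h5]
    refine Finset.sum_congr rfl fun i _ => ?_
    have h6 : ((D ×ˢ D).filter (fun x => π (x.1 - x.2) = j)).filter (fun x => π x.2 = i)
        = (D.filter (fun d => π d = i + j)) ×ˢ (D.filter (fun d => π d = i)) := by
      ext ⟨a, b⟩
      simp only [mem_filter, mem_product, map_sub]
      constructor
      · rintro ⟨⟨⟨h7, h8⟩, h9⟩, h10⟩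
        refine ⟨⟨h7, ?_⟩, h8, h10⟩
        rw [← h9, h10]; ring
      · rintro ⟨⟨h7, h8⟩, h9, h10⟩
        refine ⟨⟨⟨h7, h9⟩, ?_⟩, h10⟩
        rw [h8, h10]; ring
    rw [h6, card_product]
    push_cast
    ring
  have hA0 := hA 0
  have hAj := hA j
  simp only [add_zero] at hA0
  rw [hA0, hAj]
  have hc : (univ.filter (fun g : G => π g = j)).card = (univ.filter (fun g : G => π g = 0)).card :=
    AddMonoidHom.card_fiber_eq_of_mem_range π (hπ j) (hπ 0)
  have hj' : ∑ g ∈ univ.filter (fun g : G => π g = j), (((D ×ˢ D).filter (fun x => x.1 - x.2 = g)).card : ℤ)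
      = (univ.filter (fun g : G => π g = 0)).card * (l : ℤ) := by
    rw [← hc, ← nsmul_eq_mul, ← Finset.sum_const]
    refine Finset.sum_congr rfl fun g hg => ?_
    rw [hD g]
    rintro rfl
    simp only [mem_filter, mem_univ, true_and, map_zero] at hg
    exact hj hg.symm
  have h0 : (0 : G) ∈ univ.filter (fun g : G => π g = 0) := by simp
  have hdiag : ((D ×ˢ D).filter (fun x => x.1 - x.2 = 0)).card = D.card := by
    have h1 : (D ×ˢ D).filter (fun x => x.1 - x.2 = 0) = D.image (fun d => (d, d)) := by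
      ext ⟨a, b⟩
      simp only [mem_filter, mem_product, mem_image, Prod.mk.injEq]
      constructor
      · rintro ⟨⟨h1, h2⟩, h3⟩
        exact ⟨a, h1, rfl, sub_eq_zero.1 h3⟩
      · rintro ⟨d, h1, rfl, rfl⟩
        exact ⟨⟨h1, h1⟩, sub_self _⟩
    rw [h1, card_image_of_injective _ (fun a b h => (Prod.mk.inj h).1)]
  have h0' : ∑ g ∈ univ.filter (fun g : G => π g = 0), (((D ×ˢ D).filter (fun x => x.1 - x.2 = g)).card : ℤ)
      = (n : ℤ) + (univ.filter (fun g : G => π g = 0)).card * (l : ℤ) := by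
    rw [← Finset.add_sum_erase _ _ h0, hdiag, hk]
    have h1 : ∑ g ∈ (univ.filter (fun g : G => π g = 0)).erase 0,
        (((D ×ˢ D).filter (fun x => x.1 - x.2 = g)).card : ℤ)
        = ((univ.filter (fun g : G => π g = 0)).erase 0).card * (l : ℤ) := by
      rw [← nsmul_eq_mul, ← Finset.sum_const]
      refine Finset.sum_congr rfl fun g hg => ?_
      rw [hD g (ne_of_mem_erase hg)]
    rw [h1, card_erase_of_mem h0, Nat.cast_sub (card_pos.2 ⟨0, h0⟩)]
    push_cast
    ring
  rw [h0', hj']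
  ring

/-- `k (k - 1) = l (v - 1)` in the form `k ^ 2 = n + l v` -/
theorem param_eq (D : Finset G) (l n : ℕ)
    (hD : ∀ g : G, g ≠ 0 → ((D ×ˢ D).filter (fun x => x.1 - x.2 = g)).card = l) (hk : D.card = n + l) :
    (n + l) ^ 2 = n + l * Fintype.card G := by
  have hdiag : ((D ×ˢ D).filter (fun x => x.1 - x.2 = 0)).card = D.card := by
    have h1 : (D ×ˢ D).filter (fun x => x.1 - x.2 = 0) = D.image (fun d => (d, d)) := by
      ext ⟨a, b⟩
      simp only [mem_filter, mem_product, mem_image, Prod.mk.injEq]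
      constructor
      · rintro ⟨⟨h1, h2⟩, h3⟩
        exact ⟨a, h1, rfl, sub_eq_zero.1 h3⟩
      · rintro ⟨d, h1, rfl, rfl⟩
        exact ⟨⟨h1, h1⟩, sub_self _⟩
    rw [h1, card_image_of_injective _ (fun a b h => (Prod.mk.inj h).1)]
  have h2 := Finset.card_eq_sum_card_fiberwise (f := fun x : G × G => x.1 - x.2)
    (s := D ×ˢ D) (t := (univ : Finset G)) (fun x _ => by simp)
  rw [card_product, ← Finset.add_sum_erase _ _ (mem_univ (0 : G)), hdiag, hk] at h2
  have h3 : ∑ g ∈ (univ : Finset G).erase 0, ((D ×ˢ D).filter (fun x => x.1 - x.2 = g)).card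
      = ((univ : Finset G).erase 0).card * l := by
    rw [← smul_eq_mul, ← Finset.sum_const]
    refine Finset.sum_congr rfl fun g hg => ?_
    rw [hD g (ne_of_mem_erase hg)]
  rw [h3, card_erase_of_mem (mem_univ _), card_univ] at h2
  have h4 : 1 ≤ Fintype.card G := Fintype.card_pos
  obtain ⟨m, hm⟩ := Nat.exists_eq_add_of_le h4
  rw [hm] at h2 ⊢
  rw [Nat.add_sub_cancel_left] at h2
  rw [sq, h2]
  ring

/-- **Shape of the order** of an abelian difference set with `gcd (|G|, n) > 1`. -/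
theorem shape (D : Finset G) (l n : ℕ)
    (hD : ∀ g : G, g ≠ 0 → ((D ×ˢ D).filter (fun x => x.1 - x.2 = g)).card = l) (hk : D.card = n + l)
    (hgcd : Nat.gcd (Fintype.card G) n ≠ 1) :
    IsSquare n ∨ ∃ p : ℕ, p.Prime ∧ p ≠ 2 ∧ p ^ 2 ∣ n ∧
      ∀ q : ℕ, q.Prime → jacobiSym (q : ℤ) p = -1 → q ∣ n → q ^ 2 ∣ n := by
  obtain ⟨p, hp, hpd⟩ := Nat.exists_prime_and_dvd hgcd
  have hpG : p ∣ Fintype.card G := hpd.trans (Nat.gcd_dvd_left _ _)
  have hpn : p ∣ n := hpd.trans (Nat.gcd_dvd_right _ _)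
  have : Fact p.Prime := ⟨hp⟩
  obtain ⟨π, hπ⟩ := exists_hom p hpG
  have hac := autocorr p π hπ D l n hD hk
  rcases eq_or_ne p 2 with rfl | hp2
  · left
    have h1 := isSquare_of_two _ (n : ℤ) hac
    rwa [Int.isSquare_natCast_iff] at h1
  · right
    refine ⟨p, hp, hp2, ?_, ?_⟩
    · have h1 := param_eq D l n hD hk
      have h2 : p ∣ (n + l) ^ 2 := by
        rw [h1]
        exact dvd_add hpn (Dvd.dvd.mul_left hpG l)
      have h3 : p ∣ n + l := hp.dvd_of_dvd_pow h2
      have h4 : p ∣ l := (Nat.dvd_add_right hpn).1 h3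
      have h5 : p ^ 2 ∣ (n + l) ^ 2 := pow_dvd_pow_of_dvd h3 2
      have h6 : p ^ 2 ∣ l * Fintype.card G := by
        rw [sq]; exact mul_dvd_mul h4 hpG
      rw [h1] at h5
      exact (Nat.dvd_add_iff_left h6).2 h5
    · intro q hq hj hqn
      have : Fact q.Prime := ⟨hq⟩
      rw [← jacobiSym.legendreSym.to_jacobiSym] at hj
      have h1 := sq_dvd_of_legendre p q hj _ (n : ℤ) hac (by exact_mod_cast hqn)
      exact_mod_cast h1

end

end Pool.Agent.Lib.MP_f4ebb7_co
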