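import Mathlib

/-!
# Partial summation: from `θ_P(m) ≥ m/2 - m/(log m)^2` to `∑ 1/q ≥ (1/2) log log M - ...`
-/

set_option autoImplicit false

namespace Pool.Agent.Lib.MP_f4ebb7_co

open Finset

/-- `f(m) = 1/(m log m)` -/
noncomputable def ff (m : ℕ) : ℝ := 1 / ((m : ℝ) * Real.log m)

theorem one_le_log {m : ℕ} (hm : 3 ≤ m) : 1 ≤ Real.log m := by
  have h1 : Real.exp 1 ≤ m := by
    have h2 : (3 : ℝ) ≤ m := by exact_mod_cast hm
    have := Real.exp_one_lt_d9
    linarith
  rw [← Real.log_exp 1]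
  exact Real.log_le_log (Real.exp_pos _) h1

theorem log_succ_bounds {m : ℕ} (hm : 1 ≤ m) :
    1 / ((m : ℝ) + 1) ≤ Real.log ((m : ℝ) + 1) - Real.log m ∧
      Real.log ((m : ℝ) + 1) - Real.log m ≤ 1 / (m : ℝ) := by
  have hm' : (0 : ℝ) < m := by exact_mod_cast hm
  constructor
  · have h1 := Real.log_le_sub_one_of_pos (show (0 : ℝ) < (m : ℝ) / (m + 1) by positivity)
    rw [Real.log_div hm'.ne' (by positivity)] at h1
    have h2 : (m : ℝ) / (m + 1) - 1 = -(1 / ((m : ℝ) + 1)) := by field_simp; ring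
    linarith
  · have h1 := Real.log_le_sub_one_of_pos (show (0 : ℝ) < ((m : ℝ) + 1) / m by positivity)
    rw [Real.log_div (by positivity) hm'.ne'] at h1
    have h2 : ((m : ℝ) + 1) / m - 1 = 1 / (m : ℝ) := by field_simp; ring
    linarith

theorem ff_sub_nonneg {m : ℕ} (hm : 3 ≤ m) : 0 ≤ ff m - ff (m + 1) := by
  have h1 := one_le_log hm
  have h2 : 1 ≤ Real.log ((m + 1 : ℕ) : ℝ) := one_le_log (by omega)
  have hm' : (0 : ℝ) < m := by exact_mod_cast (by omega : 0 < m)
  unfold ff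
  rw [sub_nonneg]
  apply one_div_le_one_div_of_le (by positivity)
  have h3 := (log_succ_bounds (show 1 ≤ m by omega)).1
  push_cast at h2 ⊢
  have h4 : 0 ≤ 1 / ((m : ℝ) + 1) := by positivity
  nlinarith

theorem ff_sub_le {m : ℕ} (hm : 3 ≤ m) : ff m - ff (m + 1) ≤ 2 / ((m : ℝ) * (m + 1) * Real.log m) := by
  have h1 := one_le_log hm
  have h2 : 1 ≤ Real.log ((m + 1 : ℕ) : ℝ) := one_le_log (by omega)
  push_cast at h2
  have hm' : (0 : ℝ) < m := by exact_mod_cast (by omega : 0 < m)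
  have h3 := (log_succ_bounds (show 1 ≤ m by omega)).2
  have h5 : (m : ℝ) * (Real.log ((m : ℝ) + 1) - Real.log m) ≤ 1 := by
    calc (m : ℝ) * (Real.log ((m : ℝ) + 1) - Real.log m) ≤ m * (1 / (m : ℝ)) :=
          mul_le_mul_of_nonneg_left h3 hm'.le
      _ = 1 := by field_simp
  unfold ff
  push_cast
  rw [div_sub_div _ _ (by positivity) (by positivity), div_le_div_iff₀ (by positivity) (by positivity)]
  set a := Real.log (m : ℝ) with ha
  set b := Real.log ((m : ℝ) + 1) with hb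
  set x := (m : ℝ) with hx
  have h6 : 1 * ((x + 1) * b) - x * a * 1 ≤ 2 * b := by nlinarith
  calc (1 * ((x + 1) * b) - x * a * 1) * (x * (x + 1) * a)
      ≤ (2 * b) * (x * (x + 1) * a) := mul_le_mul_of_nonneg_right h6 (by positivity)
    _ = 2 * (x * a * ((x + 1) * b)) := by ring

/-- the error term of one step -/
theorem err_step {m : ℕ} (hm : 3 ≤ m) :
    (m : ℝ) / Real.log m ^ 2 * (ff m - ff (m + 1)) ≤ 4 * (1 / Real.log m - 1 / Real.log ((m + 1 : ℕ) : ℝ)) := by
  have h1 := one_le_log hm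
  have h2 : 1 ≤ Real.log ((m + 1 : ℕ) : ℝ) := one_le_log (by omega)
  push_cast at h2 ⊢
  have hm' : (0 : ℝ) < m := by exact_mod_cast (by omega : 0 < m)
  have hm3 : (3 : ℝ) ≤ m := by exact_mod_cast hm
  have h3 := log_succ_bounds (show 1 ≤ m by omega)
  have h4 : (m : ℝ) / Real.log m ^ 2 * (ff m - ff (m + 1))
      ≤ (m : ℝ) / Real.log m ^ 2 * (2 / ((m : ℝ) * (m + 1) * Real.log m)) :=
    mul_le_mul_of_nonneg_left (ff_sub_le hm) (by positivity)
  refine h4.trans ?_
  set a := Real.log (m : ℝ) with ha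
  set b := Real.log ((m : ℝ) + 1) with hb
  set x := (m : ℝ) with hx
  have h5 : x / a ^ 2 * (2 / (x * (x + 1) * a)) = 2 / ((x + 1) * a ^ 3) := by
    field_simp
  have h6 : 1 / a - 1 / b = (b - a) / (a * b) := by
    field_simp
  rw [h5, h6]
  have h7 : b ≤ 2 * a := by
    have : 1 / x ≤ 1 := by rw [div_le_one hm']; linarith
    linarith [h3.2]
  have h8 : b ≤ 2 * a ^ 2 := by nlinarith
  calc 2 / ((x + 1) * a ^ 3) ≤ 4 * (1 / (x + 1)) / (a * b) := by
        rw [mul_one_div, div_div, div_le_div_iff₀ (by positivity) (by positivity)]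
        have h9 : a * b ≤ 2 * a ^ 3 := by nlinarith
        nlinarith [mul_le_mul_of_nonneg_left h9 (show (0 : ℝ) ≤ x + 1 by positivity)]
    _ ≤ 4 * ((b - a) / (a * b)) := by
        rw [mul_div_assoc]
        refine mul_le_mul_of_nonneg_left ?_ (by norm_num)
        exact div_le_div_of_nonneg_right h3.1 (by positivity)

theorem loglog_step {m : ℕ} (hm : 3 ≤ m) :
    Real.log (Real.log ((m + 2 : ℕ) : ℝ)) - Real.log (Real.log ((m + 1 : ℕ) : ℝ)) ≤ ff (m + 1) := by
  have h1 : 1 ≤ Real.log ((m + 1 : ℕ) : ℝ) := one_le_log (by omega)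
  have h2 : 1 ≤ Real.log ((m + 2 : ℕ) : ℝ) := one_le_log (by omega)
  have h3 := (log_succ_bounds (show 1 ≤ m + 1 by omega)).2
  have h3' : Real.log ((m + 2 : ℕ) : ℝ) - Real.log ((m + 1 : ℕ) : ℝ) ≤ 1 / ((m + 1 : ℕ) : ℝ) := by
    have h4 : (((m + 1 : ℕ) : ℝ) + 1) = ((m + 2 : ℕ) : ℝ) := by push_cast; ring
    rw [h4] at h3
    exact h3
  have hm' : (0 : ℝ) < ((m + 1 : ℕ) : ℝ) := by positivity
  set a := Real.log ((m + 1 : ℕ) : ℝ) with ha
  set b := Real.log ((m + 2 : ℕ) : ℝ) with hb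
  have h5 := Real.log_le_sub_one_of_pos (show (0 : ℝ) < b / a by positivity)
  rw [Real.log_div (by positivity) (by positivity)] at h5
  refine h5.trans ?_
  unfold ff
  rw [← ha]
  have h6 : b / a - 1 = (b - a) / a := by field_simp
  rw [h6, div_le_div_iff₀ (by positivity) (by positivity)]
  have h7 : (b - a) * (((m + 1 : ℕ) : ℝ)) ≤ 1 := by
    calc (b - a) * (((m + 1 : ℕ) : ℝ)) ≤ 1 / ((m + 1 : ℕ) : ℝ) * (((m + 1 : ℕ) : ℝ)) :=
          mul_le_mul_of_nonneg_right h3' hm'.le
      _ = 1 := by field_simp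
  nlinarith

open Classical in
/-- the logarithmic sum over the primes `q ≤ m` with `P q` -/
noncomputable def thP (P : ℕ → Prop) (m : ℕ) : ℝ := ∑ q ∈ (Nat.primesLE m).filter P, Real.log q

open Classical in
/-- the sum of reciprocals over the primes `q ≤ m` with `P q` -/
noncomputable def reP (P : ℕ → Prop) (m : ℕ) : ℝ := ∑ q ∈ (Nat.primesLE m).filter P, (1 : ℝ) / q

theorem primesLE_succ (m : ℕ) : Nat.primesLE (m + 1) =
    if (m + 1).Prime then insert (m + 1) (Nat.primesLE m) else Nat.primesLE m := by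
  ext q
  split_ifs with h
  · rw [mem_insert, Nat.mem_primesLE, Nat.mem_primesLE]
    constructor
    · rintro ⟨h1, h2⟩
      rcases Nat.lt_or_ge m q with h3 | h3
      · left; omega
      · right; exact ⟨h3, h2⟩
    · rintro (rfl | ⟨h1, h2⟩)
      · exact ⟨le_rfl, h⟩
      · exact ⟨by omega, h2⟩
  · rw [Nat.mem_primesLE, Nat.mem_primesLE]
    constructor
    · rintro ⟨h1, h2⟩
      refine ⟨?_, h2⟩
      rcases Nat.lt_or_ge m q with h3 | h3
      · exfalso
        have : q = m + 1 := by omega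
        rw [this] at h2; exact h h2
      · exact h3
    · rintro ⟨h1, h2⟩
      exact ⟨by omega, h2⟩

theorem step_id (P : ℕ → Prop) {m : ℕ} (hm : 3 ≤ m) :
    reP P (m + 1) - reP P m = (thP P (m + 1) - thP P m) * ff (m + 1) := by
  classical
  have hnm : m + 1 ∉ Nat.primesLE m := by
    intro h
    rw [Nat.mem_primesLE] at h
    omega
  have h1 : 1 ≤ Real.log ((m + 1 : ℕ) : ℝ) := one_le_log (by omega)
  have hm' : (0 : ℝ) < ((m + 1 : ℕ) : ℝ) := by positivity
  unfold reP thP
  rw [primesLE_succ]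
  split_ifs with h
  · rw [filter_insert]
    split_ifs with hP
    · have hnm' : m + 1 ∉ (Nat.primesLE m).filter P := fun h => hnm (mem_of_mem_filter _ h)
      rw [sum_insert hnm', sum_insert hnm', add_sub_cancel_right, add_sub_cancel_right]
      unfold ff
      field_simp
    · rw [sub_self, sub_self, zero_mul]
  · rw [sub_self, sub_self, zero_mul]

theorem thP_nonneg (P : ℕ → Prop) (m : ℕ) : 0 ≤ thP P m :=
  Finset.sum_nonneg fun q _ => Real.log_natCast_nonneg q

theorem thP_le (P : ℕ → Prop) (m : ℕ) : thP P m ≤ Real.log 4 * m := by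
  classical
  have h1 := Chebyshev.theta_le_log4_mul_x (x := (m : ℝ)) (Nat.cast_nonneg m)
  rw [Chebyshev.theta_eq_sum_primesLE_log] at h1
  refine le_trans ?_ h1
  exact Finset.sum_le_sum_of_subset_of_nonneg (filter_subset _ _) (fun q _ _ => Real.log_natCast_nonneg q)

/-- the inductive form of the partial summation -/
theorem ps_ind (P : ℕ → Prop) (y : ℕ) (hy : 3 ≤ y) (M : ℕ) (hyM : y ≤ M)
    (hθ : ∀ m, y ≤ m → m ≤ M → (m : ℝ) / 2 - m / Real.log m ^ 2 ≤ thP P m) :
    1 / 2 * (Real.log (Real.log ((M + 1 : ℕ) : ℝ)) - Real.log (Real.log ((y + 1 : ℕ) : ℝ)))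
      + 1 / 2 * (y * ff y - M * ff M) - 4 * (1 / Real.log y - 1 / Real.log M)
      ≤ reP P M - reP P y - thP P M * ff M + thP P y * ff y := by
  induction M, hyM using Nat.le_induction with
  | base => simp
  | succ M hyM ih =>
    have ih' := ih (fun m h1 h2 => hθ m h1 (by omega))
    have hM3 : 3 ≤ M := by omega
    have h1 := step_id P hM3
    have h2 := loglog_step hM3
    have h3 := err_step hM3
    have h4 := hθ M hyM (by omega)
    have h5 := ff_sub_nonneg hM3
    have h6 := mul_le_mul_of_nonneg_right h4 h5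
    have h7 : ((M : ℝ) / 2 - M / Real.log M ^ 2) * (ff M - ff (M + 1))
        = 1 / 2 * (M * ff M - ((M + 1 : ℕ) : ℝ) * ff (M + 1)) + 1 / 2 * ff (M + 1)
          - (M : ℝ) / Real.log M ^ 2 * (ff M - ff (M + 1)) := by
      push_cast
      ring
    have h8 : reP P (M + 1) = reP P M + (thP P (M + 1) - thP P M) * ff (M + 1) := by linarith
    rw [h8]
    have h9 : M + 1 + 1 = M + 2 := by ring
    rw [h9]
    nlinarith

/-- **Partial summation** -/
theorem ps (P : ℕ → Prop) (y : ℕ) (hy : 3 ≤ y) (M : ℕ) (hyM : y ≤ M)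
    (hθ : ∀ m, y ≤ m → m ≤ M → (m : ℝ) / 2 - m / Real.log m ^ 2 ≤ thP P m) :
    1 / 2 * (Real.log (Real.log M) - Real.log (Real.log ((y + 1 : ℕ) : ℝ))) - 6 ≤ reP P M := by
  classical
  have h1 := ps_ind P y hy M hyM hθ
  have hM3 : 3 ≤ M := by omega
  have hly := one_le_log hy
  have hlM := one_le_log hM3
  have hy' : (0 : ℝ) < y := by exact_mod_cast (by omega : 0 < y)
  have hM' : (0 : ℝ) < M := by exact_mod_cast (by omega : 0 < M)
  have hlyM : Real.log y ≤ Real.log M := Real.log_le_log hy' (by exact_mod_cast hyM)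
  have h2 : (y : ℝ) * ff y = 1 / Real.log y := by unfold ff; field_simp
  have h3 : (M : ℝ) * ff M = 1 / Real.log M := by unfold ff; field_simp
  have h4 : 1 / Real.log M ≤ 1 / Real.log y := one_div_le_one_div_of_le (by linarith) hlyM
  have h5 : 1 / Real.log (y : ℝ) ≤ 1 := by rw [div_le_one (by linarith)]; exact hly
  have h6 : 0 ≤ 1 / Real.log (M : ℝ) := by positivity
  have h7 : 0 ≤ thP P M * ff M := mul_nonneg (thP_nonneg P M) (by unfold ff; positivity)
  have h8 : 0 ≤ reP P y := Finset.sum_nonneg fun q _ => by positivity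
  have hl4 : Real.log 4 ≤ 2 := by
    have h9 : Real.log 4 = 2 * Real.log 2 := by
      rw [show (4 : ℝ) = 2 ^ 2 by norm_num, Real.log_pow]; push_cast; ring
    have := Real.log_two_lt_d9
    linarith
  have h9 : thP P y * ff y ≤ 2 := by
    calc thP P y * ff y ≤ (Real.log 4 * y) * ff y :=
          mul_le_mul_of_nonneg_right (thP_le P y) (by unfold ff; positivity)
      _ = Real.log 4 * (1 / Real.log y) := by rw [mul_assoc, h2]
      _ ≤ 2 * 1 := mul_le_mul hl4 h5 (by positivity) (by norm_num)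
      _ = 2 := by norm_num
  have h10 : Real.log (Real.log M) ≤ Real.log (Real.log ((M + 1 : ℕ) : ℝ)) := by
    refine Real.log_le_log (by linarith) (Real.log_le_log hM' ?_)
    push_cast; linarith
  rw [h2, h3] at h1
  linarith

end Pool.Agent.Lib.MP_f4ebb7_co
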