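import Mathlib

/-!
# Self-conjugacy in the group ring of `ZMod p`

If `g : ZMod p → ℤ` has the two-valued autocorrelation `A(0) - A(j) = n` (`j ≠ 0`), `q ≠ p` is a prime dividing `n`
and a power of `q` is `-1` modulo `p`, then `q ^ 2` divides `n`.
-/

set_option autoImplicit false

namespace Pool.Agent.Lib.MP_f4ebb7_co

open Finset

section
variable {p : ℕ} [Fact p.Prime] {L : Type*} [Field L]

/-- the character sum of `g` -/
noncomputable def chF (ψ : AddChar (ZMod p) L) (g : ZMod p → ℤ) (k : ZMod p) : L :=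
  ∑ i, (g i : L) * ψ (i * k)

theorem chF_inv (ψ : AddChar (ZMod p) L) (hψ : ψ.IsPrimitive) (g : ZMod p → ℤ) (i : ZMod p) :
    ∑ k, chF ψ g k * ψ (-(i * k)) = p * (g i : L) := by
  unfold chF
  simp_rw [Finset.sum_mul]
  rw [Finset.sum_comm]
  have h : ∀ j : ZMod p, ∑ k, (g j : L) * ψ (j * k) * ψ (-(i * k)) = (g j : L) * (if j - i = 0 then (p : L) else 0) := by
    intro j
    have h1 := AddChar.sum_mulShift (j - i) hψ
    rw [ZMod.card] at h1
    have h2 : (((if j - i = 0 then p else 0 : ℕ)) : L) = if j - i = 0 then (p : L) else 0 := by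
      split_ifs <;> simp
    rw [← h2, ← h1, Finset.mul_sum]
    refine Finset.sum_congr rfl fun k _ => ?_
    rw [mul_assoc, ← AddChar.map_add_eq_mul]
    congr 2
    ring
  simp_rw [h]
  rw [Finset.sum_eq_single i]
  · simp [mul_comm]
  · intro j _ hj
    rw [if_neg (sub_ne_zero.2 hj), mul_zero]
  · intro h; exact absurd (mem_univ _) h

theorem chF_mul (ψ : AddChar (ZMod p) L) (hψ : ψ.IsPrimitive) (g : ZMod p → ℤ) (n : ℤ)
    (hn : ∀ j : ZMod p, j ≠ 0 → ∑ i, g i * g i - ∑ i, g i * g (i + j) = n) (k : ZMod p) (hk : k ≠ 0) :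
    chF ψ g k * chF ψ g (-k) = (n : L) := by
  have h1 : chF ψ g k * chF ψ g (-k) = ∑ d : ZMod p, ((∑ i, g i * g (i + d) : ℤ) : L) * ψ (d * k) := by
    unfold chF
    rw [Finset.sum_mul_sum, Finset.sum_comm]
    have h2 : ∀ d : ZMod p, ((∑ i, g i * g (i + d) : ℤ) : L) * ψ (d * k)
        = ∑ i, (g i : L) * (g (i + d) : L) * ψ (d * k) := by
      intro d
      push_cast
      rw [Finset.sum_mul]
    simp_rw [h2]
    rw [Finset.sum_comm (s := (univ : Finset (ZMod p))) (t := (univ : Finset (ZMod p)))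
      (f := fun d i => (g i : L) * (g (i + d) : L) * ψ (d * k))]
    refine Finset.sum_congr rfl fun j _ => ?_
    rw [← Equiv.sum_comp (Equiv.addLeft j)]
    refine Finset.sum_congr rfl fun d _ => ?_
    simp only [Equiv.coe_addLeft]
    have h3 : ψ (d * k) = ψ ((j + d) * k) * ψ (j * -k) := by
      rw [← AddChar.map_add_eq_mul]
      congr 1
      ring
    rw [h3]
    ring
  rw [h1]
  have h4 : ∀ d : ZMod p, ((∑ i, g i * g (i + d) : ℤ) : L) * ψ (d * k)
      = ((∑ i, g i * g i - n : ℤ) : L) * ψ (d * k) + (if d = 0 then (n : L) else 0) := by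
    intro d
    by_cases hd : d = 0
    · subst hd
      simp
    · rw [if_neg hd, add_zero]
      congr 2
      have := hn d hd
      linarith
  simp_rw [h4]
  rw [Finset.sum_add_distrib, ← Finset.mul_sum, AddChar.sum_mulShift k hψ, if_neg hk]
  simp

theorem chF_frob {q : ℕ} [Fact q.Prime] [CharP L q] (ψ : AddChar (ZMod p) L) (g : ZMod p → ℤ) (t : ℕ)
    (k : ZMod p) : (chF ψ g k) ^ q ^ t = chF ψ g ((q : ZMod p) ^ t * k) := by
  have h1 : (chF ψ g k) ^ q ^ t = iterateFrobenius L q t (chF ψ g k) := (iterateFrobenius_def q t _).symm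
  rw [h1]
  unfold chF
  rw [map_sum]
  refine Finset.sum_congr rfl fun i _ => ?_
  rw [map_mul, map_intCast, iterateFrobenius_def, ← AddChar.map_nsmul_eq_pow]
  congr 2
  rw [nsmul_eq_mul]
  push_cast
  ring

end

/-- all values are congruent modulo `q` -/
theorem exists_quot (p q : ℕ) [Fact p.Prime] [Fact q.Prime] (hpq : q ≠ p) (t : ℕ) (ht : (q : ZMod p) ^ t = -1)
    (g : ZMod p → ℤ) (n : ℤ) (hn : ∀ j : ZMod p, j ≠ 0 → ∑ i, g i * g i - ∑ i, g i * g (i + j) = n)
    (hq : (q : ℤ) ∣ n) : ∃ h : ZMod p → ℤ, ∀ i, g i = g 0 + q * h i := by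
  have hp : p.Prime := Fact.out
  have hq' : q.Prime := Fact.out
  have hp0 : ((⟨p, hp.pos⟩ : ℕ+) : ZMod q) ≠ 0 := by
    change ((p : ℕ) : ZMod q) ≠ 0
    rw [Ne, ZMod.natCast_eq_zero_iff]
    intro h
    exact hpq ((Nat.prime_dvd_prime_iff_eq hq' hp).1 h)
  set Ψ := AddChar.primitiveZModChar ⟨p, hp.pos⟩ (ZMod q) hp0 with hΨ
  set L := CyclotomicField Ψ.n (ZMod q) with hL
  set ψ : AddChar (ZMod p) L := Ψ.char with hψ
  have hprim : ψ.IsPrimitive := Ψ.prim
  have : CharP L q := charP_of_injective_algebraMap (algebraMap (ZMod q) L).injective q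
  have hpL : (p : L) ≠ 0 := by
    rw [Ne, CharP.cast_eq_zero_iff L q]
    intro h
    exact hpq ((Nat.prime_dvd_prime_iff_eq hq' hp).1 h)
  have hnL : (n : L) = 0 := by
    rw [CharP.intCast_eq_zero_iff L q]
    exact hq
  have hF : ∀ k : ZMod p, k ≠ 0 → chF ψ g k = 0 := by
    intro k hk
    have h1 := chF_mul ψ hprim g n hn k hk
    have h2 := chF_frob (q := q) ψ g t k
    rw [ht, neg_one_mul] at h2
    rw [← h2, hnL, ← pow_succ'] at h1
    exact pow_eq_zero_iff (Nat.succ_ne_zero _) |>.1 h1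
  have hconst : ∀ i : ZMod p, (p : L) * (g i : L) = chF ψ g 0 := by
    intro i
    rw [← chF_inv ψ hprim g i, Finset.sum_eq_single 0]
    · simp
    · intro k _ hk
      rw [hF k hk, zero_mul]
    · intro h; exact absurd (mem_univ _) h
  have hdvd : ∀ i : ZMod p, (q : ℤ) ∣ g i - g 0 := by
    intro i
    rw [← CharP.intCast_eq_zero_iff L q]
    push_cast
    have h1 := hconst i
    have h2 := hconst 0
    have h3 : (p : L) * ((g i : L) - (g 0 : L)) = 0 := by rw [mul_sub, h1, h2, sub_self]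
    exact (mul_eq_zero.1 h3).resolve_left hpL
  choose h hh using hdvd
  exact ⟨h, fun i => by rw [← hh i]; ring⟩

theorem sq_dvd_of_selfconj (p q : ℕ) [Fact p.Prime] [Fact q.Prime] (hpq : q ≠ p) (t : ℕ)
    (ht : (q : ZMod p) ^ t = -1)
    (g : ZMod p → ℤ) (n : ℤ) (hn : ∀ j : ZMod p, j ≠ 0 → ∑ i, g i * g i - ∑ i, g i * g (i + j) = n)
    (hq : (q : ℤ) ∣ n) : (q : ℤ) ^ 2 ∣ n := by
  obtain ⟨h, hh⟩ := exists_quot p q hpq t ht g n hn hq
  have h1 := hn 1 one_ne_zero
  refine ⟨∑ i, h i * h i - ∑ i, h i * h (i + 1), ?_⟩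
  rw [← h1]
  have h2 : ∑ i, g i * g i = ∑ i, (g 0 * g 0 + g 0 * q * h i + g 0 * q * h i + q ^ 2 * (h i * h i)) := by
    refine Finset.sum_congr rfl fun i _ => ?_
    rw [hh i]; ring
  have h3 : ∑ i, g i * g (i + 1)
      = ∑ i, (g 0 * g 0 + g 0 * q * h i + g 0 * q * h (i + 1) + q ^ 2 * (h i * h (i + 1))) := by
    refine Finset.sum_congr rfl fun i _ => ?_
    rw [hh i, hh (i + 1)]; ring
  have h4 : ∑ i, h (i + 1) = ∑ i : ZMod p, h i := Equiv.sum_comp (Equiv.addRight (1 : ZMod p)) h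
  rw [h2, h3]
  simp only [Finset.sum_add_distrib, ← Finset.mul_sum]
  rw [h4]
  ring

/-- the case `p = 2`: the order is a square -/
theorem isSquare_of_two (g : ZMod 2 → ℤ) (n : ℤ)
    (hn : ∀ j : ZMod 2, j ≠ 0 → ∑ i, g i * g i - ∑ i, g i * g (i + j) = n) : IsSquare n := by
  have h1 := hn 1 (by decide)
  refine ⟨g 0 - g 1, ?_⟩
  rw [← h1]
  have h2 : (univ : Finset (ZMod 2)) = {0, 1} := by decide
  rw [h2]
  rw [Finset.sum_pair (by decide), Finset.sum_pair (by decide)]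
  have h3 : (0 + 1 : ZMod 2) = 1 := by decide
  have h4 : (1 + 1 : ZMod 2) = 0 := by decide
  rw [h3, h4]
  ring

/-- the odd case with the Legendre symbol -/
theorem sq_dvd_of_legendre (p q : ℕ) [Fact p.Prime] [Fact q.Prime] (hleg : legendreSym p q = -1)
    (g : ZMod p → ℤ) (n : ℤ) (hn : ∀ j : ZMod p, j ≠ 0 → ∑ i, g i * g i - ∑ i, g i * g (i + j) = n)
    (hq : (q : ℤ) ∣ n) : (q : ℤ) ^ 2 ∣ n := by
  have hp : p.Prime := Fact.out
  have hpq : q ≠ p := by
    rintro rfl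
    have : legendreSym q q = 0 := by
      rw [legendreSym.eq_zero_iff]
      simp
    rw [this] at hleg
    norm_num at hleg
  refine sq_dvd_of_selfconj p q hpq (p / 2) ?_ g n hn hq
  have := legendreSym.eq_pow p (q : ℤ)
  rw [hleg] at this
  push_cast at this
  exact this.symm

end Pool.Agent.Lib.MP_f4ebb7_co
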